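import Mathlib

/-! Alternating composition factors. -/

set_option autoImplicit false

open Equiv Equiv.Perm MulAction

namespace Pool.Agent.Lib.MP_7ab245_nt.Solv.FM

/-- a permutation which commutes with all even permutations is trivial -/
theorem eq_one_of_comm_alt {α : Type*} [Fintype α] [DecidableEq α] (h4 : 4 ≤ Fintype.card α)
    (l : Perm α) (hl : ∀ s ∈ alternatingGroup α, s * l = l * s) : l = 1 := by
  by_contra hne
  obtain ⟨x, hx⟩ : ∃ x, l x ≠ x := by
    by_contra hcon
    push Not at hcon
    exact hne (Equiv.ext hcon)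
  have hcard : 2 ≤ (({x, l x} : Finset α)ᶜ).card := by
    rw [Finset.card_compl, Finset.card_pair hx.symm]
    omega
  obtain ⟨c, hc, d, hd, hcd⟩ := Finset.one_lt_card.1 hcard
  simp only [Finset.mem_compl, Finset.mem_insert, Finset.mem_singleton, not_or] at hc hd
  have hk : swap (l x) d * swap (l x) c ∈ alternatingGroup α := by
    rw [mem_alternatingGroup, map_mul, sign_swap (Ne.symm hd.2), sign_swap (Ne.symm hc.2)]
    norm_num
  have h1 := congrArg (fun p : Perm α => p x) (hl _ hk)
  simp only [Perm.mul_apply] at h1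
  rw [swap_apply_left, swap_apply_of_ne_of_ne hx.symm (Ne.symm hc.1),
    swap_apply_of_ne_of_ne hx.symm (Ne.symm hd.1), swap_apply_of_ne_of_ne hc.2 hcd] at h1
  exact hc.2 h1

/-- a nontrivial normal subgroup of a permutation group containing the alternating group
contains the alternating group -/
theorem alt_le_of_normal {α : Type*} [Fintype α] [DecidableEq α] (h5 : 5 ≤ Fintype.card α)
    (L : Subgroup (Perm α)) (hL : L ≠ ⊥)
    (hn : ∀ s ∈ alternatingGroup α, ∀ l ∈ L, s * l * s⁻¹ ∈ L) : alternatingGroup α ≤ L := by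
  have hsimple : IsSimpleGroup (alternatingGroup α) :=
    alternatingGroup.isSimpleGroup (by rw [Nat.card_eq_fintype_card]; exact h5)
  have hN : (L.subgroupOf (alternatingGroup α)).Normal := by
    constructor
    intro l hl s
    rw [Subgroup.mem_subgroupOf] at hl ⊢
    exact hn s s.2 l hl
  have hAn : (alternatingGroup α).Normal := inferInstance
  rcases hsimple.eq_bot_or_eq_top_of_normal _ hN with h | h
  · exfalso
    apply hL
    rw [Subgroup.eq_bot_iff_forall]
    intro l hl
    apply eq_one_of_comm_alt (by omega) l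
    intro s hs
    have h1 : s * l * s⁻¹ * l⁻¹ ∈ L := L.mul_mem (hn s hs l hl) (L.inv_mem hl)
    have h2 : s * l * s⁻¹ * l⁻¹ ∈ alternatingGroup α := by
      have h3 := hAn.conj_mem s⁻¹ ((alternatingGroup α).inv_mem hs) l
      have h4 := (alternatingGroup α).mul_mem hs h3
      have h5 : s * l * s⁻¹ * l⁻¹ = s * (l * s⁻¹ * l⁻¹) := by group
      rw [h5]
      exact h4
    have h3 : (⟨_, h2⟩ : alternatingGroup α) ∈ L.subgroupOf (alternatingGroup α) :=
      Subgroup.mem_subgroupOf.2 h1
    rw [h, Subgroup.mem_bot] at h3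
    have h4 : s * l * s⁻¹ * l⁻¹ = 1 := congrArg Subtype.val h3
    calc s * l = (s * l * s⁻¹ * l⁻¹) * (l * s) := by group
      _ = l * s := by rw [h4, one_mul]
  · exact Subgroup.subgroupOf_eq_top.1 h

/-- the permutations of the cosets of `H` induced by the elements of the group -/
def cosetPerms {S : Type*} [Group S] (H : Subgroup S) : Subgroup (Perm (S ⧸ H)) :=
  (toPermHom S (S ⧸ H)).range

theorem fact_lt {a s : ℕ} (h5 : 5 ≤ a) (hs : s ^ 2 ≤ a) : 2 * s.factorial < a.factorial := by
  have h1 : s + 2 ≤ a := by
    by_contra hcon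
    push Not at hcon
    have h2 : a ≤ s + 1 := by omega
    nlinarith
  have h2 : (s + 2).factorial ≤ a.factorial := Nat.factorial_le h1
  have h3 : (s + 2).factorial = (s + 2) * ((s + 1) * s.factorial) := by
    rw [Nat.factorial_succ, Nat.factorial_succ]
  have h4 : 0 < s.factorial := Nat.factorial_pos s
  have h5 : 2 * s.factorial ≤ (s + 2) * ((s + 1) * s.factorial) := by
    calc 2 * s.factorial ≤ (s + 2) * (1 * s.factorial) := by
          rw [one_mul]
          exact Nat.mul_le_mul_right _ (by omega)
      _ ≤ _ := Nat.mul_le_mul_left _ (Nat.mul_le_mul_right _ (by omega))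
  have h6 : 2 * s.factorial ≠ a.factorial ∨ True := Or.inr trivial
  rcases Nat.eq_zero_or_pos s with h0 | h0
  · subst h0
    have : (5).factorial ≤ a.factorial := Nat.factorial_le (by omega)
    simp only [Nat.factorial] at this ⊢
    omega
  · calc 2 * s.factorial < (s + 2) * ((s + 1) * s.factorial) := by
          have h7 : 2 * s.factorial < 3 * (2 * s.factorial) := by omega
          refine lt_of_lt_of_le h7 ?_
          exact Nat.mul_le_mul (by omega) (Nat.mul_le_mul_right _ (by omega))
      _ = (s + 2).factorial := h3.symm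
      _ ≤ _ := h2

/-- `S` acts on the cosets of `H` as a group containing the alternating group, and `S` has small
index: then the alternating group is a composition factor of the big group. -/
theorem alt_factor {G : Type*} [Group G] [Finite G] (S : Subgroup G) (H : Subgroup S)
    [Fintype (S ⧸ H)] [DecidableEq (S ⧸ H)] (h5 : 5 ≤ H.index) (hS : S.index ^ 2 ≤ H.index)
    (hA : alternatingGroup (S ⧸ H) ≤ cosetPerms H) :
    ∃ A : Subgroup G, A.IsSubnormal ∧
      ∃ φ : A →* alternatingGroup (Fin H.index), Function.Surjective φ := by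
  have hcard : Fintype.card (S ⧸ H) = H.index := by
    rw [Subgroup.index, Nat.card_eq_fintype_card]
  set K : Subgroup G := S.normalCore with hK
  have hKn : K.Normal := Subgroup.normalCore_normal S
  have hKS : K ≤ S := Subgroup.normalCore_le S
  set ψ : K →* Perm (S ⧸ H) := (toPermHom S (S ⧸ H)).comp (Subgroup.inclusion hKS) with hψ
  have hψ' : ∀ k : K, ψ k = toPermHom S (S ⧸ H) ⟨k, hKS k.2⟩ := fun k => rfl
  have hKidx : K.index ≤ S.index.factorial := by
    have h1 : K.index ∣ S.index.factorial := by
      rw [hK, Subgroup.normalCore_eq_ker, Subgroup.index_ker, Subgroup.index_eq_card,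
        ← Nat.card_perm]
      exact Subgroup.card_subgroup_dvd_card _
    exact Nat.le_of_dvd (Nat.factorial_pos _) h1
  have hnb : ψ.range ≠ ⊥ := by
    intro hbot
    have h1 : ∀ k : K, ψ k = 1 := by
      intro k
      have : ψ k ∈ ψ.range := ⟨k, rfl⟩
      rw [hbot, Subgroup.mem_bot] at this
      exact this
    -- the group of coset permutations is a quotient of `S / K`
    have h2 : Nat.card (cosetPerms H) ≤ K.index := by
      have h3 : (K.subgroupOf S) ≤ (toPermHom S (S ⧸ H)).ker := by
        intro s hs
        rw [MonoidHom.mem_ker]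
        exact h1 ⟨s, Subgroup.mem_subgroupOf.1 hs⟩
      have h4 : Nat.card (cosetPerms H) = (toPermHom S (S ⧸ H)).ker.index := by
        rw [Subgroup.index_ker]
        rfl
      rw [h4]
      have h5 : (toPermHom S (S ⧸ H)).ker.index ≤ (K.subgroupOf S).index :=
        Subgroup.index_antitone h3
      refine h5.trans ?_
      have h6 := Subgroup.relIndex_mul_index hKS
      rw [Subgroup.relIndex] at h6
      have h7 : 0 < S.index := Nat.pos_of_ne_zero Subgroup.index_ne_zero_of_finite
      rw [← h6]
      exact Nat.le_mul_of_pos_right _ h7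
    have h3 : Nat.card (alternatingGroup (S ⧸ H)) ≤ Nat.card (cosetPerms H) :=
      Subgroup.card_le_of_le hA
    have hnt : Nontrivial (S ⧸ H) := Fintype.one_lt_card_iff_nontrivial.1 (by omega)
    have h4 : 2 * Nat.card (alternatingGroup (S ⧸ H)) = (Fintype.card (S ⧸ H)).factorial := by
      rw [two_mul_nat_card_alternatingGroup, Nat.card_eq_fintype_card, Fintype.card_perm]
    have h5' := fact_lt h5 hS
    rw [hcard] at h4
    omega
  have hle : alternatingGroup (S ⧸ H) ≤ ψ.range := by
    apply alt_le_of_normal (by omega) _ hnb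
    rintro s hs _ ⟨k, rfl⟩
    obtain ⟨t, rfl⟩ := hA hs
    refine ⟨⟨t * k * (t : G)⁻¹, hKn.conj_mem k k.2 t⟩, ?_⟩
    rw [hψ', hψ', ← map_inv, ← map_mul, ← map_mul]
    rfl
  -- the subnormal subgroup
  set AK : Subgroup K := (alternatingGroup (S ⧸ H)).comap ψ with hAK
  have hAKn : AK.Normal := inferInstance
  refine ⟨AK.map K.subtype, ?_, ?_⟩
  · refine Subgroup.IsSubnormal.step _ K (Subgroup.map_subtype_le _) hKn.isSubnormal ?_
    have : (AK.map K.subtype).subgroupOf K = AK := by
      rw [Subgroup.subgroupOf, Subgroup.comap_map_eq_self_of_injective K.subtype_injective]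
    rw [this]
    exact hAKn
  · let e : AK ≃* AK.map K.subtype := AK.equivMapOfInjective K.subtype K.subtype_injective
    let χ : AK →* alternatingGroup (S ⧸ H) :=
      (ψ.comp AK.subtype).codRestrict (alternatingGroup (S ⧸ H)) fun x => x.2
    have hχ : Function.Surjective χ := by
      rintro ⟨s, hs⟩
      obtain ⟨k, hk⟩ := hle hs
      refine ⟨⟨k, ?_⟩, ?_⟩
      · rw [hAK, Subgroup.mem_comap, hk]
        exact hs
      · apply Subtype.ext
        exact hk
    let f : alternatingGroup (S ⧸ H) ≃* alternatingGroup (Fin H.index) :=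
      Equiv.altCongrHom ((Fintype.equivFin (S ⧸ H)).trans (finCongr hcard))
    refine ⟨(f.toMonoidHom.comp χ).comp e.symm.toMonoidHom, ?_⟩
    exact (f.surjective.comp hχ).comp e.symm.surjective

end Pool.Agent.Lib.MP_7ab245_nt.Solv.FM
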