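import Mathlib
import Pool.Agent.Lib.MP_7ab245_nt.Solv.F.Orbit
import Pool.Agent.Lib.MP_7ab245_nt.Solv.F.Height
import Pool.Agent.Lib.MP_7ab245_nt.Solv.F.Kron
import Pool.Agent.Lib.MP_7ab245_nt.Solv.F.RepFacts
import Pool.Agent.Lib.MP_7ab245_nt.Solv.F.Mul
import Pool.Agent.Lib.MP_7ab245_nt.Solv.SX.Defs

/-! Irreducible unit polynomials without torsion ratios of roots. -/

set_option autoImplicit false

open Polynomial

namespace Pool.Agent.Lib.MP_7ab245_nt.Solv.FM

open Pool.Agent.Lib.MP_7ab245_nt.Solv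

/-- `g` is a monic irreducible integer polynomial which splits in `Ω`, its roots are units,
`1 < M g ≤ 2 ^ t`, and the ratio of two different roots is never a root of unity. -/
structure Good (Ω : Type) [Field Ω] [NumberField Ω] (t : ℕ) (g : ℤ[X]) : Prop where
  monic : g.Monic
  irr : Irreducible g
  splits : (g.map (algebraMap ℤ Ω)).Splits
  one_lt : 1 < M g
  le : M g ≤ 2 ^ t
  coeff : |g.coeff 0| = 1
  ratio : ∀ x : Ω, aeval x g = 0 → ∀ (s : Ω ≃ₐ[ℚ] Ω) (k : ℕ), 0 < k → (s x) ^ k = x ^ k → s x = x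

section unit

variable {Ω : Type} [Field Ω] [NumberField Ω] {g : ℤ[X]}

theorem root_ne_zero' (hc : |g.coeff 0| = 1) (x : Ω) (hx : aeval x g = 0) : x ≠ 0 := by
  rintro rfl
  have h1 := Polynomial.coeff_zero_eq_aeval_zero' (A := Ω) g
  rw [hx] at h1
  have h2 : g.coeff 0 = 0 := by
    rw [algebraMap_int_eq, eq_intCast] at h1
    exact_mod_cast h1
  rw [h2] at hc
  simp at hc

theorem isIntegral_inv_root' (hm : g.Monic) (hc : |g.coeff 0| = 1) (x : Ω)
    (hx : aeval x g = 0) : IsIntegral ℤ x⁻¹ := by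
  have hx0 := root_ne_zero' hc x hx
  have hint : IsIntegral ℤ x := ⟨g, hm, by rw [← Polynomial.aeval_def]; exact hx⟩
  have h1 : IsIntegral ℤ (aeval x g.divX) := by
    have h2 : Algebra.adjoin ℤ {x} ≤ integralClosure ℤ Ω := by
      rw [Algebra.adjoin_le_iff, Set.singleton_subset_iff]
      exact hint
    exact h2 (Polynomial.aeval_mem_adjoin_singleton ℤ x)
  have h3 : aeval x g.divX * x + (g.coeff 0 : Ω) = 0 := by
    have h4 := congrArg (aeval x) (Polynomial.divX_mul_X_add g)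
    rw [hx, map_add, map_mul, Polynomial.aeval_X, Polynomial.aeval_C, algebraMap_int_eq,
      eq_intCast] at h4
    exact h4
  have h5 : g.coeff 0 = 1 ∨ g.coeff 0 = -1 := eq_or_eq_neg_of_abs_eq hc
  rcases h5 with h5 | h5
  · rw [h5, Int.cast_one] at h3
    have h7 : x⁻¹ = -(aeval x g.divX) := by
      apply inv_eq_of_mul_eq_one_right
      linear_combination -h3
    rw [h7]
    exact h1.neg
  · rw [h5, Int.cast_neg, Int.cast_one] at h3
    have h7 : x⁻¹ = aeval x g.divX := by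
      apply inv_eq_of_mul_eq_one_right
      linear_combination h3
    rw [h7]
    exact h1

variable [IsGalois ℚ Ω] (ι : Ω →+* ℂ)

theorem lg_root_ne_zero' (hm : g.Monic) (hi : Irreducible g) (h1g : 1 < M g) (x : Ω)
    (hx : aeval x g = 0) : lg ι x ≠ 0 := by
  intro h
  have h1 := height_formula ι g hm hi x hx
  have h2 : ∀ s : Ω ≃ₐ[ℚ] Ω, Real.posLog ‖ι (s x)‖ = 0 := by
    intro s
    have h3 : Real.log ‖ι (s x)‖ = 0 := congrFun h s
    rw [Real.posLog, h3, max_self]
  rw [Finset.sum_eq_zero (fun s _ => h2 s), mul_zero] at h1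
  have h4 : 0 < Real.log (M g) := Real.log_pos h1g
  have h5 : (0 : ℝ) < (Nat.card (Ω ≃ₐ[ℚ] Ω) : ℝ) := by
    exact_mod_cast Nat.card_pos
  have h6 := mul_pos h5 h4
  linarith

/-- conjugates with the same logarithmic vector differ by a root of unity -/
theorem pow_eq_of_lg_eq (hm : g.Monic) (hc : |g.coeff 0| = 1) (x y : Ω) (hx : aeval x g = 0)
    (hy : aeval y g = 0) (h : lg ι y = lg ι x) : ∃ k : ℕ, 0 < k ∧ y ^ k = x ^ k := by
  have hx0 := root_ne_zero' hc x hx
  have hy0 := root_ne_zero' hc y hy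
  have hyint : IsIntegral ℤ y := ⟨g, hm, by rw [← Polynomial.aeval_def]; exact hy⟩
  have hxi := isIntegral_inv_root' hm hc x hx
  have h1 : lg ι (y * x⁻¹) = 0 := by
    rw [lg_mul ι y x⁻¹ hy0 (inv_ne_zero hx0), lg_inv, h, add_neg_cancel]
  obtain ⟨k, hk, hk1⟩ := torsion_of_lg_eq_zero ι (y * x⁻¹)
    (mul_ne_zero hy0 (inv_ne_zero hx0)) (hyint.mul hxi) h1
  rw [mul_pow, inv_pow, mul_inv_eq_one₀ (pow_ne_zero k hx0)] at hk1
  exact ⟨k, hk, hk1⟩

end unit

section good

variable {Ω : Type} [Field Ω] [NumberField Ω] [IsGalois ℚ Ω] {t : ℕ} {g : ℤ[X]} (ι : Ω →+* ℂ)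

theorem good_root (hg : Good Ω t g) : ∃ x : Ω, aeval x g = 0 := by
  have hd : (g.map (algebraMap ℤ Ω)).degree ≠ 0 := by
    rw [hg.monic.degree_map]
    intro h0
    have h5 : g.natDegree = 0 := natDegree_eq_of_degree_eq_some h0
    have h6 : g = 1 := (hg.monic.natDegree_eq_zero).1 h5
    exact hg.irr.not_isUnit (h6 ▸ isUnit_one)
  obtain ⟨x, hx⟩ := hg.splits.exists_eval_eq_zero hd
  exact ⟨x, by rwa [eval_map_algebraMap] at hx⟩

theorem good_lg_ne_zero (hg : Good Ω t g) (x : Ω) (hx : aeval x g = 0) : lg ι x ≠ 0 :=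
  lg_root_ne_zero' ι hg.monic hg.irr hg.one_lt x hx

theorem good_eq_of_lg_eq (hg : Good Ω t g) (x y : Ω) (hx : aeval x g = 0)
    (hy : aeval y g = 0) (h : lg ι y = lg ι x) : y = x := by
  obtain ⟨k, hk, hk1⟩ := pow_eq_of_lg_eq ι hg.monic hg.coeff x y hx hy h
  obtain ⟨s, hs⟩ := exists_aut_of_root g hg.monic hg.irr x y hx hy
  rw [← hs] at hk1 ⊢
  exact hg.ratio x hx s k hk hk1

private theorem lg_eq_iff (hg : Good Ω t g) (x : Ω) (hx : aeval x g = 0)
    (s u : Ω ≃ₐ[ℚ] Ω) : lg ι (s x) = lg ι (u x) ↔ s x = u x := by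
  constructor
  · intro h
    have h1 : aeval (s x) g = 0 := by rw [aeval_aut, hx, map_zero]
    have h2 : aeval (u x) g = 0 := by rw [aeval_aut, hx, map_zero]
    exact good_eq_of_lg_eq ι hg (u x) (s x) h2 h1 h
  · intro h
    rw [h]

private theorem card_range_congr {α β γ : Type} (f : α → β) (h : α → γ)
    (hfh : ∀ a b, f a = f b ↔ h a = h b) : Nat.card (Set.range f) = Nat.card (Set.range h) := by
  have hs : Setoid.ker f = Setoid.ker h := by
    ext a b
    exact hfh a b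
  have e1 : Quotient (Setoid.ker f) ≃ Set.range f := Setoid.quotientKerEquivRange f
  have e2 : Quotient (Setoid.ker h) ≃ Set.range h := Setoid.quotientKerEquivRange h
  rw [← Nat.card_congr e1, ← Nat.card_congr e2, hs]

/-- the orbit of the logarithmic vector has `deg g` elements -/
theorem good_osz (hg : Good Ω t g) (x : Ω) (hx : aeval x g = 0) :
    SX.osz (rep (Ω ≃ₐ[ℚ] Ω)) (lg ι x) = g.natDegree := by
  unfold SX.osz
  rw [← card_orbit_eq_natDegree g hg.monic hg.irr x hx]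
  apply card_range_congr
  intro a b
  rw [rep_lg, rep_lg]
  exact lg_eq_iff ι hg x hx a b

/-- the orbit of a tuple of logarithmic vectors -/
theorem good_tsz (hg : Good Ω t g) (x : Ω) (hx : aeval x g = 0) {r : ℕ}
    (u : Fin r → (Ω ≃ₐ[ℚ] Ω)) : SX.tsz (rep (Ω ≃ₐ[ℚ] Ω)) (lg ι x) u =
      Module.finrank ℚ (IntermediateField.adjoin ℚ (Set.range fun i => u i x)) := by
  unfold SX.tsz
  rw [← card_range_eq_finrank]
  apply card_range_congr
  intro a b
  constructor
  · intro h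
    funext i
    have h1 := congrFun h i
    simp only [rep_lg] at h1
    exact (lg_eq_iff ι hg x hx (a * u i) (b * u i)).1 h1
  · intro h
    funext i
    have h1 : (a * u i) x = (b * u i) x := congrFun h i
    simp only [rep_lg]
    exact (lg_eq_iff ι hg x hx (a * u i) (b * u i)).2 h1

end good

end Pool.Agent.Lib.MP_7ab245_nt.Solv.FM
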