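import Mathlib

set_option autoImplicit false

/-! Many primes between `Y` and `Y ^ 2`, uniform version. -/

namespace Pool.Agent.Lib.MP_7ab245_nt.Solv

theorem primes_betweenQ (B Y : ℕ) (hB : B ≤ Y) (hY4 : 400 ≤ Y) :
    Y + B ≤ ((Finset.Ioc Y (Y ^ 2)).filter Nat.Prime).card := by
  have h1 : Nat.primeCounting (Y ^ 2) ≤
      ((Finset.Ioc Y (Y ^ 2)).filter Nat.Prime).card + Y := by
    have h2 : (Finset.range (Y ^ 2 + 1)).filter Nat.Prime ⊆
        (Finset.Ioc Y (Y ^ 2)).filter Nat.Prime ∪ Finset.Icc 1 Y := by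
      intro p hp
      obtain ⟨h3, h4⟩ := Finset.mem_filter.mp hp
      rw [Finset.mem_range] at h3
      rw [Finset.mem_union, Finset.mem_filter, Finset.mem_Ioc, Finset.mem_Icc]
      by_cases h5 : Y < p
      · exact Or.inl ⟨⟨h5, by omega⟩, h4⟩
      · exact Or.inr ⟨h4.one_lt.le, by omega⟩
    have h3 := (Finset.card_le_card h2).trans (Finset.card_union_le _ _)
    rw [Nat.card_Icc, Nat.add_sub_cancel] at h3
    rw [Nat.primeCounting, Nat.primeCounting', Nat.count_eq_card_filter_range]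
    exact h3
  have h2 : 2 * Y + B ≤ Nat.primeCounting (Y ^ 2) := by
    have h3 := (Chebyshev.psi_ge (Y ^ 2)).trans (Chebyshev.psi_le_primeCounting_mul_log (Y ^ 2))
    have hYr : (400 : ℝ) ≤ Y := by exact_mod_cast hY4
    set s := √(Y : ℝ) with hs
    have hs20 : 20 ≤ s := by
      rw [hs]
      apply Real.le_sqrt_of_sq_le
      linarith
    have hs2 : s ^ 2 = Y := Real.sq_sqrt (by linarith)
    have hlog : Real.log Y ≤ 2 * s := by
      have h4 : Real.log Y = 2 * Real.log s := by
        rw [← hs2, Real.log_pow]; push_cast; ring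
      have h5 := Real.log_le_sub_one_of_pos (show 0 < s by linarith)
      rw [h4]
      linarith
    have hlog0 : 0 ≤ Real.log Y := Real.log_nonneg (by linarith)
    have hlog2 : Real.log ((Y ^ 2 : ℕ) : ℝ) = 2 * Real.log Y := by
      push_cast
      rw [Real.log_pow]; push_cast; ring
    have hlog3 : Real.log (((Y ^ 2 : ℕ) : ℝ) + 1) ≤ 1 + 4 * s := by
      have h4 : ((Y ^ 2 : ℕ) : ℝ) + 1 ≤ 2 * (Y : ℝ) ^ 2 := by
        push_cast
        nlinarith
      calc Real.log (((Y ^ 2 : ℕ) : ℝ) + 1) ≤ Real.log (2 * (Y : ℝ) ^ 2) :=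
            Real.log_le_log (by positivity) h4
        _ = Real.log 2 + 2 * Real.log Y := by
            rw [Real.log_mul (by norm_num) (by positivity), Real.log_pow]; push_cast; ring
        _ ≤ 1 + 4 * s := by
            have := Real.log_two_lt_d9
            linarith
    rw [hlog2] at h3
    by_contra h4
    push Not at h4
    have h5 : (Nat.primeCounting (Y ^ 2) : ℝ) ≤ 3 * Y := by
      have : Nat.primeCounting (Y ^ 2) ≤ 3 * Y := by omega
      exact_mod_cast this
    have h6 : (Nat.primeCounting (Y ^ 2) : ℝ) * (2 * Real.log Y) ≤ 3 * Y * (4 * s) := by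
      apply mul_le_mul h5 (by linarith) (by linarith) (by linarith)
    have h7 : ((Y ^ 2 : ℕ) : ℝ) * Real.log 2 ≤ 1 + 4 * s + 3 * Y * (4 * s) := by linarith
    push_cast at h7
    rw [← hs2] at h7
    have h8 : 0.69 ≤ Real.log 2 := by
      have := Real.log_two_gt_d9
      linarith
    have h9 : 0.69 * s ^ 4 ≤ 1 + 4 * s + 12 * s ^ 3 := by
      have h10 : 0.69 * (s ^ 2) ^ 2 ≤ (s ^ 2) ^ 2 * Real.log 2 := by
        have : 0 ≤ (s ^ 2) ^ 2 := by positivity
        nlinarith
      nlinarith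
    have h10 : 13.8 * s ^ 3 ≤ 0.69 * s ^ 4 := by
      have : 0 ≤ s ^ 3 := by positivity
      nlinarith
    have h11 : 400 * s ≤ s ^ 3 := by
      have : 400 ≤ s ^ 2 := by nlinarith
      nlinarith
    nlinarith
  omega

end Pool.Agent.Lib.MP_7ab245_nt.Solv
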