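import Pool.Agent.Lib.MP_7ab245_nt.Solv.GoodOf
import Pool.Agent.Lib.MP_7ab245_nt.Solv.DiscZ
import Pool.Agent.Lib.MP_7ab245_nt.Solv.FM.PrimesQ

set_option autoImplicit false

/-! # GoodSet for Mahler measures at most `2 ^ t`, uniformly in `t`, for `8 r (J + 3 + 2 t) ≤ Y`. -/

namespace Pool.Agent.Lib.MP_7ab245_nt.Solv

open Polynomial

private theorem gs_num (J Y t : ℕ) (hY : 2 ^ J < Y) :
    4 ^ t * (Y + 1) ^ J < Y ^ (J + 3 + 2 * t) := by
  have h2J : 0 < 2 ^ J := by positivity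
  have hY1 : 1 ≤ Y := by omega
  have hY2 : 2 ≤ Y := by omega
  have h1 : (Y + 1) ^ J ≤ 2 ^ J * Y ^ J := by
    rw [← mul_pow]
    exact Nat.pow_le_pow_left (by omega) J
  have h2 : 0 < Y ^ J := Nat.pow_pos hY1
  have h3 : 4 ^ t ≤ Y ^ (2 * t) := by
    rw [pow_mul]
    apply Nat.pow_le_pow_left
    nlinarith
  have h3' : 0 < Y ^ (2 * t) := Nat.pow_pos hY1
  calc 4 ^ t * (Y + 1) ^ J ≤ Y ^ (2 * t) * (2 ^ J * Y ^ J) := Nat.mul_le_mul h3 h1
    _ = 2 ^ J * (Y ^ (2 * t) * Y ^ J) := by ring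
    _ < Y * (Y ^ (2 * t) * Y ^ J) := Nat.mul_lt_mul_of_pos_right hY (Nat.mul_pos h3' h2)
    _ ≤ Y ^ 3 * (Y ^ (2 * t) * Y ^ J) := by
        refine Nat.mul_le_mul_right _ ?_
        exact Nat.le_self_pow (by norm_num) Y
    _ = Y ^ (J + 3 + 2 * t) := by ring

/-- the numerical contradiction -/
private theorem gs_bound (r J Y n t : ℕ) (hr : 1 ≤ r) (hn : 1 ≤ n) (hnY : n < (Y + 1) ^ J)
    (hY : 2 ^ J < Y) (z : ℤ) (hz : z ≠ 0) (hzle : z.natAbs ≤ (4 ^ t * n) ^ n)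
    (P : Finset ℕ)
    (hP : P.card = 8 * r * (J + 3 + 2 * t)) (hPp : ∀ p ∈ P, p.Prime) (hPY : ∀ p ∈ P, Y < p)
    (d : ℕ → ℕ)
    (hd : ∀ p ∈ P, (p : ℤ) ^ d p ∣ z) (hdn : ∀ p ∈ P, n < 8 * r * d p) : False := by
  have h2J : 0 < 2 ^ J := by positivity
  have hY1 : 1 ≤ Y := by omega
  have h1 : ∏ p ∈ P, p ^ d p ∣ z.natAbs := by
    rw [← Int.natCast_dvd]
    push_cast
    refine Finset.prod_dvd_of_coprime ?_ hd
    intro p hp q hq hpq
    exact IsCoprime.pow (Nat.isCoprime_iff_coprime.mpr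
      ((Nat.coprime_primes (hPp p hp) (hPp q hq)).mpr hpq))
  have h2 : ∏ p ∈ P, p ^ d p ≤ (4 ^ t * n) ^ n :=
    (Nat.le_of_dvd (Int.natAbs_pos.mpr hz) h1).trans hzle
  have h3 : (Y ^ n) ^ (8 * r * (J + 3 + 2 * t)) ≤ (∏ p ∈ P, p ^ d p) ^ (8 * r) := by
    rw [← hP, ← Finset.prod_const, ← Finset.prod_pow]
    refine Finset.prod_le_prod' fun p hp => ?_
    rw [← pow_mul]
    calc Y ^ n ≤ p ^ n := Nat.pow_le_pow_left (hPY p hp).le n
      _ ≤ p ^ (d p * (8 * r)) := Nat.pow_le_pow_right (hPp p hp).pos (by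
          have := hdn p hp
          rw [mul_comm]
          exact this.le)
  have h4 : ((Y ^ (J + 3 + 2 * t)) ^ (8 * r)) ^ n ≤ ((4 ^ t * n) ^ (8 * r)) ^ n := by
    calc ((Y ^ (J + 3 + 2 * t)) ^ (8 * r)) ^ n = (Y ^ n) ^ (8 * r * (J + 3 + 2 * t)) := by
          rw [← pow_mul, ← pow_mul, ← pow_mul]
          congr 1
          ring
      _ ≤ (∏ p ∈ P, p ^ d p) ^ (8 * r) := h3
      _ ≤ ((4 ^ t * n) ^ n) ^ (8 * r) := Nat.pow_le_pow_left h2 _
      _ = ((4 ^ t * n) ^ (8 * r)) ^ n := by rw [← pow_mul, ← pow_mul, mul_comm n]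
  have h5 := (Nat.pow_le_pow_iff_left (by omega)).mp h4
  have h6 := (Nat.pow_le_pow_iff_left (by omega)).mp h5
  have h7 := gs_num J Y t hY
  have h8 : 4 ^ t * n < 4 ^ t * (Y + 1) ^ J := Nat.mul_lt_mul_of_pos_left hnY (by positivity)
  omega

theorem exists_good_setQ (r J : ℕ) (hr : 1 ≤ r) : ∃ Y₀ : ℕ, ∀ Y, Y₀ ≤ Y →
    ∀ t : ℕ, 8 * r * (J + 3 + 2 * t) ≤ Y →
    ∀ g : ℤ[X], g.Monic → Irreducible g → g.natDegree < (Y + 1) ^ J →
      (g.map (Int.castRingHom ℂ)).mahlerMeasure ≤ 2 ^ t →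
    ∀ (Ω : Type) [Field Ω] [NumberField Ω] [IsGalois ℚ Ω],
      (g.map (algebraMap ℤ Ω)).Splits → ∀ x : Fin r → Ω, (∀ i, aeval (x i) g = 0) →
    ∃ S : Finset ℕ, Y ≤ S.card ∧ ∀ p ∈ S, Y < p ∧ p ≤ Y ^ 2 ∧ GoodPrime x p := by
  classical
  refine ⟨max 400 (2 ^ J + 1), fun Y hY t htY g hg hirr hdeg hM Ω _ _ _ hsp x hx => ?_⟩
  have hYa : 400 ≤ Y := (le_max_left _ _).trans hY
  have hYb : 2 ^ J < Y := (le_max_right _ _).trans hY
  have hcount := primes_betweenQ (8 * r * (J + 3 + 2 * t)) Y htY hYa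
  set Pr := (Finset.Ioc Y (Y ^ 2)).filter Nat.Prime with hPr
  have hn : 1 ≤ g.natDegree := by
    rw [Nat.one_le_iff_ne_zero]
    intro h0
    have h1 := (Polynomial.Monic.natDegree_eq_zero hg).mp h0
    rw [h1] at hirr
    exact hirr.not_isUnit isUnit_one
  obtain ⟨z, hz0, hzle, hzd⟩ := exists_disc g hg hirr
  -- the bound for `z`
  have hzle' : z.natAbs ≤ (4 ^ t * g.natDegree) ^ g.natDegree := by
    have h1 : (z.natAbs : ℝ) ≤ ((4 : ℝ) ^ t * (g.natDegree : ℝ)) ^ g.natDegree := by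
      rw [Nat.cast_natAbs, Int.cast_abs]
      refine hzle.trans ?_
      rw [mul_comm, mul_pow]
      refine mul_le_mul_of_nonneg_right ?_ (by positivity)
      calc (g.map (Int.castRingHom ℂ)).mahlerMeasure ^ (2 * (g.natDegree - 1))
          ≤ ((2 : ℝ) ^ t) ^ (2 * (g.natDegree - 1)) :=
            pow_le_pow_left₀ (Polynomial.mahlerMeasure_nonneg _) hM _
        _ ≤ ((2 : ℝ) ^ t) ^ (2 * g.natDegree) :=
            pow_le_pow_right₀ (one_le_pow₀ (by norm_num)) (by omega)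
        _ = ((4 : ℝ) ^ t) ^ g.natDegree := by
            rw [pow_mul]
            congr 1
            rw [← pow_mul, mul_comm t 2, pow_mul]
            norm_num
    exact_mod_cast h1
  by_contra hcon
  push Not at hcon
  -- there are many bad primes
  have hbad : 8 * r * (J + 3 + 2 * t) ≤ (Pr.filter (fun p => ¬ GoodPrime x p)).card := by
    have h1 := Finset.card_filter_add_card_filter_not (s := Pr) (fun p => GoodPrime x p)
    have h2 : (Pr.filter (fun p => GoodPrime x p)).card < Y := by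
      by_contra h3
      push Not at h3
      obtain ⟨p, hp, h4⟩ := hcon _ h3
      rw [Finset.mem_filter, hPr, Finset.mem_filter, Finset.mem_Ioc] at hp
      exact h4 hp.1.1.1 hp.1.1.2 hp.2
    omega
  obtain ⟨P, hPs, hPc⟩ := Finset.exists_subset_card_eq hbad
  have hPmem : ∀ p ∈ P, Y < p ∧ p.Prime ∧ ¬ GoodPrime x p := by
    intro p hp
    have h1 := hPs hp
    rw [Finset.mem_filter, hPr, Finset.mem_filter, Finset.mem_Ioc] at h1
    exact ⟨h1.1.1.1, h1.1.2, h1.2⟩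
  have hex : ∀ p, ∃ d : ℕ, p ∈ P → (p : ℤ) ^ d ∣ z ∧ g.natDegree < 8 * r * d := by
    intro p
    by_cases hp : p ∈ P
    · obtain ⟨_, hpp, hbadp⟩ := hPmem p hp
      have : Fact p.Prime := ⟨hpp⟩
      by_contra hno
      apply hbadp
      refine goodPrime_of g hg hirr hsp x hx p (fun G hG1 hG2 => ?_)
      by_contra h3
      push Not at h3
      exact hno ⟨G.natDegree, fun _ => ⟨hzd p G hG1 hG2, h3⟩⟩
    · exact ⟨0, fun h => absurd h hp⟩
  choose d hd using hex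
  exact gs_bound r J Y g.natDegree t hr hn hdeg hYb z hz0 hzle' P hPc (fun p hp => (hPmem p hp).2.1)
    (fun p hp => (hPmem p hp).1) d (fun p hp => (hd p hp).1) (fun p hp => (hd p hp).2)

end Pool.Agent.Lib.MP_7ab245_nt.Solv
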