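import Pool.Agent.Lib.MP_7ab245_nt.Solv.HtOf

set_option autoImplicit false

/-! # HtOf for Mahler measures at most `2 ^ t`. -/

namespace Pool.Agent.Lib.MP_7ab245_nt.Solv

open Polynomial

private theorem htOfT_norm {Ω : Type*} [Field Ω] [NumberField Ω] [IsGalois ℚ Ω] (ι : Ω →+* ℂ)
    (y : Ω) (hy0 : y ≠ 0) (hy : IsIntegral ℤ y) (hy' : IsIntegral ℤ y⁻¹) :
    ∏ σ : Ω ≃ₐ[ℚ] Ω, ‖ι (σ y)‖ = 1 := by
  obtain ⟨N, hN, -⟩ := exists_norm y hy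
  obtain ⟨N', hN', -⟩ := exists_norm y⁻¹ hy'
  rw [norm_eq_prod ι y N hN]
  have h1 : (N : Ω) * (N' : Ω) = 1 := by
    rw [← hN, ← hN', ← Finset.prod_mul_distrib]
    apply Finset.prod_eq_one
    intro σ _
    rw [← map_mul, mul_inv_cancel₀ hy0, map_one]
  have h2 : N * N' = 1 := by exact_mod_cast h1
  have h3 : IsUnit N := IsUnit.of_mul_eq_one N' h2
  have h4 : |N| = 1 := Int.isUnit_iff_abs_eq.1 h3
  exact_mod_cast h4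

private theorem htOfT_inv {Ω : Type*} [Field Ω] [NumberField Ω] [IsGalois ℚ Ω] (ι : Ω →+* ℂ)
    (y : Ω) (hy0 : y ≠ 0) (hy : IsIntegral ℤ y) (hy' : IsIntegral ℤ y⁻¹) :
    ∏ σ : Ω ≃ₐ[ℚ] Ω, max 1 ‖ι (σ y)‖⁻¹ = ∏ σ : Ω ≃ₐ[ℚ] Ω, max 1 ‖ι (σ y)‖ := by
  have h1 : ∀ σ : Ω ≃ₐ[ℚ] Ω, max 1 ‖ι (σ y)‖ = ‖ι (σ y)‖ * max 1 ‖ι (σ y)‖⁻¹ := by
    intro σ
    have h2 : 0 < ‖ι (σ y)‖ := by
      rw [norm_pos_iff]
      intro h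
      rw [map_eq_zero] at h
      exact hy0 ((map_eq_zero σ).1 h)
    rw [mul_max_of_nonneg _ _ h2.le, mul_one, mul_inv_cancel₀ h2.ne', max_comm]
  rw [Finset.prod_congr rfl fun σ _ => h1 σ, Finset.prod_mul_distrib,
    htOfT_norm ι y hy0 hy hy', one_mul]

theorem ht_okT {Ω : Type*} [Field Ω] [NumberField Ω] [IsGalois ℚ Ω] (ι : Ω →+* ℂ) {r : ℕ}
    (g : ℤ[X]) (hg : g.Monic) (hirr : Irreducible g) (hd : 1 ≤ g.natDegree)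
    (h0 : |g.coeff 0| = 1)
    (t : ℕ) (hM : (g.map (Int.castRingHom ℂ)).mahlerMeasure ≤ 2 ^ t)
    (hsp : (g.map (algebraMap ℤ Ω)).Splits) (x : Fin r → Ω) (hx : ∀ i, aeval (x i) g = 0)
    (X : ℕ) (hX : 2 * r * t * X ≤ g.natDegree) : HtOK ι x X := by
  unfold HtOK
  set n := g.natDegree with hn
  set c := Fintype.card (Ω ≃ₐ[ℚ] Ω) with hc
  have hA : ∀ i, (∏ σ : Ω ≃ₐ[ℚ] Ω, max 1 ‖ι (σ (x i))‖) ^ n ≤ ((2 : ℝ) ^ t) ^ c := by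
    intro i
    rw [hn, prod_max_pow ι g hg hirr hsp (x i) (hx i)]
    exact pow_le_pow_left₀ (mahlerMeasure_nonneg _) hM _
  have hA0 : ∀ i, 0 ≤ ∏ σ : Ω ≃ₐ[ℚ] Ω, max 1 ‖ι (σ (x i))‖ := fun i =>
    Finset.prod_nonneg fun σ _ => le_trans zero_le_one (le_max_left _ _)
  have h1 : ∏ σ : Ω ≃ₐ[ℚ] Ω, wt ι x σ ^ X =
      (∏ i, (∏ σ : Ω ≃ₐ[ℚ] Ω, max 1 ‖ι (σ (x i))‖)) ^ (2 * X) := by
    rw [Finset.prod_pow]
    unfold wt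
    rw [Finset.prod_comm, pow_mul]
    congr 1
    rw [← Finset.prod_pow]
    refine Finset.prod_congr rfl fun i _ => ?_
    obtain ⟨h2, h3, h4⟩ := unit_of_coeff g hg hd h0 (x i) (hx i)
    rw [Finset.prod_mul_distrib, htOfT_inv ι (x i) h2 h3 h4, sq]
  have h5 : (∏ σ : Ω ≃ₐ[ℚ] Ω, wt ι x σ ^ X) ^ n ≤ ((2 : ℝ) ^ c) ^ n := by
    rw [h1]
    calc ((∏ i, (∏ σ : Ω ≃ₐ[ℚ] Ω, max 1 ‖ι (σ (x i))‖)) ^ (2 * X)) ^ n
        = (∏ i, (∏ σ : Ω ≃ₐ[ℚ] Ω, max 1 ‖ι (σ (x i))‖) ^ n) ^ (2 * X) := by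
          rw [Finset.prod_pow, ← pow_mul, ← pow_mul, mul_comm]
      _ ≤ (∏ _i : Fin r, ((2 : ℝ) ^ t) ^ c) ^ (2 * X) := by
          apply pow_le_pow_left₀ (Finset.prod_nonneg fun i _ => pow_nonneg (hA0 i) _)
          exact Finset.prod_le_prod (fun i _ => pow_nonneg (hA0 i) _) fun i _ => hA i
      _ = ((2 : ℝ) ^ c) ^ (2 * r * t * X) := by
          rw [Finset.prod_const, Finset.card_univ, Fintype.card_fin, ← pow_mul, ← pow_mul,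
            ← pow_mul, ← pow_mul]
          congr 1
          ring
      _ ≤ ((2 : ℝ) ^ c) ^ n :=
          pow_le_pow_right₀ (one_le_pow₀ (by norm_num)) hX
  exact (pow_le_pow_iff_left₀ (by rw [h1]; exact pow_nonneg (Finset.prod_nonneg fun i _ => hA0 i) _)
    (by positivity) (by omega)).1 h5

end Pool.Agent.Lib.MP_7ab245_nt.Solv
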