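import Pool.Agent.Lib.MP_7ab245_nt.Solv.GeoMain
import Pool.Agent.Lib.MP_7ab245_nt.Solv.GeoNum
import Pool.Agent.Lib.MP_7ab245_nt.Solv.KiGal
import Pool.Agent.Lib.MP_7ab245_nt.Solv.FM.GoodSetQ
import Pool.Agent.Lib.MP_7ab245_nt.Solv.FM.HtOfT
import Pool.Agent.Lib.MP_7ab245_nt.Solv.Transfer
import Pool.Agent.Lib.MP_7ab245_nt.Solv.FM.BNumQ

set_option autoImplicit false

namespace Pool.Agent.Lib.MP_7ab245_nt.Solv

open Polynomial Module

/-- Theorem B with a small loss in the exponent: `[ℚ(x_1, …, x_r) : ℚ] > n ^ (r - 1 / D)` for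
conjugate units with `M ≤ 2 ^ t`, `t ^ L ≤ n`, `n ≥ n₀`. -/
theorem theoremB_Q (r D : ℕ) (hr : 1 ≤ r) (hD : 1 ≤ D) : ∃ L n₀ : ℕ, ∀ g : ℤ[X], g.Monic →
    Irreducible g → ∀ t : ℕ, t ^ L ≤ g.natDegree →
    n₀ ≤ g.natDegree → |g.coeff 0| = 1 → (g.map (Int.castRingHom ℂ)).mahlerMeasure ≤ 2 ^ t →
    ∀ (Ω : Type) [Field Ω] [NumberField Ω] [IsGalois ℚ Ω],
    (g.map (algebraMap ℤ Ω)).Splits → ∀ x : Fin r → Ω, (∀ i, aeval (x i) g = 0) → MulInd x →
    g.natDegree ^ (r * D - 1) <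
      Module.finrank ℚ (IntermediateField.adjoin ℚ (Set.range x)) ^ D := by
  set J := (6 * r + 11) * r * D + 2 with hJ
  have hJbig : 6 * r + 11 ≤ J := by
    have h1 : 1 ≤ r * D := Nat.mul_pos hr hD
    have h2 : (6 * r + 11) * 1 ≤ (6 * r + 11) * (r * D) := Nat.mul_le_mul_left _ h1
    rw [hJ, mul_assoc]
    omega
  set T := 2 * (J + 1) * (r + 2) with hT
  set C := (exps r T).card * (2 * r + T + 6) with hC
  have hC1 : 1 ≤ C := by
    have h1 : 1 ≤ (exps r T).card :=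
      exps_card_pos r T (Nat.succ_le_of_lt (by rw [hT]; positivity))
    exact Nat.mul_pos h1 (by positivity)
  obtain ⟨k, hk⟩ := exists_k C
  set e := (J + 1) * r with he
  obtain ⟨Y₁, hY₁⟩ := num_eventually r C e k hC1 hk
  obtain ⟨Y₂, hY₂⟩ := exists_good_setQ r J hr
  obtain ⟨n₀, hn₀⟩ := b_numQ r D (max Y₁ Y₂) hr hD J hJ
  refine ⟨2 * (J + 1), max n₀ 1, fun g hg hirr t htn hn h0 hM Ω _ _ _ hsp x hx hind => ?_⟩
  obtain ⟨Y, hYY, hY1, hn2, hlt, hlt', hht, hX1, hK1, hXe, hK2, hgs⟩ :=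
    hn₀ g.natDegree ((le_max_left _ _).trans hn) t htn
  have hd : 1 ≤ g.natDegree := (le_max_right _ _).trans hn
  have hnum : Num r C e k Y := hY₁ Y ((le_max_left _ _).trans hYY)
  obtain ⟨S, hSc, hS⟩ := hY₂ Y ((le_max_right _ _).trans hYY) t hgs g hg hirr hlt hM Ω hsp x hx
  by_contra hcon
  push Not at hcon
  obtain ⟨ι⟩ : Nonempty (Ω →+* ℂ) := inferInstance
  have hu := fun i => unit_of_coeff g hg hd h0 (x i) (hx i)
  set X := Y ^ (J - 3) with hX
  have hXY : X * Y ^ 2 = Y ^ (J - 1) := by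
    rw [hX, ← pow_add]
    congr 1
    omega
  have hdeg : finrank ℚ (IntermediateField.adjoin ℚ (Set.range x)) ≤ g.natDegree ^ r := by
    have h1 : finrank ℚ (IntermediateField.adjoin ℚ (Set.range x)) ^ D ≤
        (g.natDegree ^ r) ^ D := by
      refine hcon.trans ?_
      rw [← pow_mul]
      exact Nat.pow_le_pow_right (by omega) (by omega)
    exact (Nat.pow_le_pow_iff_left (by omega)).1 h1
  have henv : Env (fun i => ι (x i)) C e Y X S := by
    refine ⟨fun i => ?_, mulInd_transfer ι x hind, integral_transfer ι x, ?_, ?_, ?_, ?_, hSc,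
      hXe, ?_⟩
    · simpa using (hu i).1
    · rw [finrank_big]
      exact hdeg.trans hK1
    · exact fun p hp => (hS p hp).2.2.1
    · exact fun p hp => (hS p hp).1
    · exact fun p hp => (hS p hp).2.1
    · intro m N S' E hm hS' hS'n hE hmN
      rw [rkS_transfer, rk_transfer]
      exact ki_gal ι x (fun i => (hu i).1) (fun i => (hu i).2.1) (fun i => (hu i).2.2) J Y X
        g.natDegree hY1 hlt' hn2 hX1
        (by rw [hXY]; exact ht_okT ι g hg hirr hd h0 t hM hsp x hx _ hht) S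
        hS m N S' E hm hS' hS'n hE hmN
  have hfin := card_le_finrank (fun i => ι (x i)) henv hnum (Y ^ (J - (6 * r + 11)))
    (Nat.one_le_pow _ _ (by omega)) (by
      rw [hX, ← pow_add]
      apply Nat.pow_le_pow_right (by omega)
      omega)
  rw [finrank_big] at hfin
  exact absurd (hK2.trans_le (Nat.pow_le_pow_left hfin D)) (not_lt.2 hcon)

end Pool.Agent.Lib.MP_7ab245_nt.Solv
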