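import Mathlib
import Pool.Agent.Lib.MP_7ab245_nt.Solv.FM.Good
import Pool.Agent.Lib.MP_7ab245_nt.Solv.FM.TheoremBQ

/-! Theorem B in group form for good polynomials, uniformly in the Mahler measure. -/

set_option autoImplicit false

open Polynomial

namespace Pool.Agent.Lib.MP_7ab245_nt.Solv.FM

open Pool.Agent.Lib.MP_7ab245_nt.Solv

/-- Theorem B in group form, exponent `r - 1 / D`, uniformly in the Mahler measure. -/
theorem good_groupBDQ (r D : ℕ) (hr : 1 ≤ r) (hD : 1 ≤ D) : ∃ L n₀ : ℕ, ∀ (Ω : Type) [Field Ω]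
    [NumberField Ω] [IsGalois ℚ Ω] (ι : Ω →+* ℂ) (t : ℕ) (g : ℤ[X]), Good Ω t g →
    t ^ L ≤ g.natDegree → n₀ ≤ g.natDegree → ∀ (x : Ω), aeval x g = 0 →
    ∀ u : Fin r → (Ω ≃ₐ[ℚ] Ω),
    LinearIndependent ℚ (fun i => rep (Ω ≃ₐ[ℚ] Ω) (u i) (lg ι x)) →
    g.natDegree ^ (r * D - 1) < SX.tsz (rep (Ω ≃ₐ[ℚ] Ω)) (lg ι x) u ^ D := by
  obtain ⟨L, n₀, hn₀⟩ := theoremB_Q r D hr hD
  refine ⟨L, n₀, ?_⟩
  intro Ω _ _ _ ι t g hg ht hn x hx u hli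
  have hroot : ∀ u : Ω ≃ₐ[ℚ] Ω, aeval (u x) g = 0 := by
    intro u
    rw [aeval_aut, hx, map_zero]
  have hne : ∀ i, u i x ≠ 0 := fun i => root_ne_zero' hg.coeff _ (hroot (u i))
  have hmi : MulInd fun i => u i x := by
    apply mulInd_of_linearIndependent ι _ hne
    simpa only [rep_lg] using hli
  rw [good_tsz ι hg x hx u]
  exact hn₀ g hg.monic hg.irr t ht hn hg.coeff hg.le Ω hg.splits (fun i => u i x)
    (fun i => hroot (u i)) hmi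

/-- Theorem B in group form, with a factor `K`, uniformly in the Mahler measure. -/
theorem good_groupBQ (r K : ℕ) (hr : 1 ≤ r) : ∃ L n₀ : ℕ, ∀ (Ω : Type) [Field Ω]
    [NumberField Ω] [IsGalois ℚ Ω] (ι : Ω →+* ℂ) (t : ℕ) (g : ℤ[X]), Good Ω t g →
    t ^ L ≤ g.natDegree → n₀ ≤ g.natDegree → ∀ (x : Ω), aeval x g = 0 →
    ∀ u : Fin r → (Ω ≃ₐ[ℚ] Ω),
    LinearIndependent ℚ (fun i => rep (Ω ≃ₐ[ℚ] Ω) (u i) (lg ι x)) →
    K * g.natDegree ^ (r - 1) < SX.tsz (rep (Ω ≃ₐ[ℚ] Ω)) (lg ι x) u := by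
  obtain ⟨L, n₀, h⟩ := good_groupBDQ r 2 hr (by norm_num)
  refine ⟨L, max n₀ (K ^ 2), fun Ω _ _ _ ι t g hg ht hn x hx u hli => ?_⟩
  have h1 := h Ω ι t g hg ht ((le_max_left _ _).trans hn) x hx u hli
  have h2 : K ^ 2 ≤ g.natDegree := (le_max_right _ _).trans hn
  refine lt_of_pow_lt_pow_left₀ 2 (Nat.zero_le _) (lt_of_le_of_lt ?_ h1)
  have h3 : r * 2 - 1 = (r - 1) * 2 + 1 := by omega
  calc (K * g.natDegree ^ (r - 1)) ^ 2 = K ^ 2 * g.natDegree ^ ((r - 1) * 2) := by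
        rw [mul_pow, ← pow_mul]
    _ ≤ g.natDegree * g.natDegree ^ ((r - 1) * 2) := Nat.mul_le_mul_right _ h2
    _ = g.natDegree ^ (r * 2 - 1) := by rw [h3, pow_succ, mul_comm]

theorem pow_le_of_exponent_le {t L L' n : ℕ} (h : L ≤ L') (hn : 1 ≤ n) (ht : t ^ L' ≤ n) :
    t ^ L ≤ n := by
  rcases Nat.eq_zero_or_pos t with h0 | h0
  · rw [h0]
    rcases L with _ | L
    · simpa using hn
    · simp
  · exact (Nat.pow_le_pow_right h0 h).trans ht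

end Pool.Agent.Lib.MP_7ab245_nt.Solv.FM
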