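import Mathlib
import Pool.Agent.Lib.MP_7ab245_nt.Solv.GroupA
import Pool.Agent.Lib.MP_7ab245_nt.Solv.F.SolvGroup
import Pool.Agent.Lib.MP_7ab245_nt.Solv.PS.Grp
import Pool.Agent.Lib.MP_7ab245_nt.Solv.SX.X22
import Pool.Agent.Lib.MP_7ab245_nt.Solv.SX.X23

/-! Group theory: Theorem B in group form excludes small composition factors. -/

set_option autoImplicit false

namespace Pool.Agent.Lib.MP_7ab245_nt.Solv.FM

open Pool.Agent.Lib.MP_7ab245_nt.Solv

theorem not_smallFactors (κ : ℕ) : ∃ K n₀ : ℕ, ∀ {G W : Type} [Group G] [Finite G]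
    [AddCommGroup W] [Module ℚ W] (ρ : Representation ℚ G W) (w : W), w ≠ 0 →
    n₀ ≤ SX.osz ρ w → (∀ r : ℕ, 2 ≤ r → r ≤ κ + 6 → ∀ u : Fin r → G,
      LinearIndependent ℚ (fun i => ρ (u i) w) →
      K * SX.osz ρ w ^ (r - 1) < SX.tsz ρ w u) → ¬ SX.SmallFactors κ G := by
  obtain ⟨K₁, n₁, hX⟩ := SX.groupX κ
  refine ⟨max K₁ 512, max n₁ 3, ?_⟩
  intro G W _ _ _ _ ρ w hw hn hB hsf
  have hn1 : n₁ ≤ SX.osz ρ w := (le_max_left _ _).trans hn
  have hn3 : 3 ≤ SX.osz ρ w := (le_max_right _ _).trans hn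
  set H := SX.H1 ρ w with hH
  set φ : G →* (MulAction.toPermHom G (G ⧸ H)).range :=
    (MulAction.toPermHom G (G ⧸ H)).rangeRestrict with hφ
  have hφs : Function.Surjective φ := MonoidHom.rangeRestrict_surjective _
  have hker : ∀ g : G, φ g = 1 ↔ ∀ x : G, x⁻¹ * g * x ∈ H := by
    intro g
    rw [hφ, Subtype.ext_iff, MonoidHom.coe_rangeRestrict, Subgroup.coe_one]
    constructor
    · intro h x
      have h1 : g • (x : G ⧸ H) = (x : G ⧸ H) := by
        have := congrArg (fun p : Equiv.Perm (G ⧸ H) => p (x : G ⧸ H)) h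
        simpa using this
      rw [MulAction.Quotient.smul_coe, smul_eq_mul] at h1
      have h2 := QuotientGroup.eq.1 h1.symm
      rwa [← mul_assoc] at h2
    · intro h
      apply Equiv.ext
      intro q
      obtain ⟨x, rfl⟩ := QuotientGroup.mk_surjective q
      change g • (x : G ⧸ H) = (x : G ⧸ H)
      rw [MulAction.Quotient.smul_coe, smul_eq_mul]
      apply (QuotientGroup.eq.2 _).symm
      rw [← mul_assoc]
      exact h x
  have hmemH : ∀ (g x : G), x⁻¹ * g * x ∈ H ↔ (ρ (g * x) w = ρ x w ∨ ρ (g * x) w = -ρ x w) := by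
    intro g x
    rw [hH, PS.mem_H1]
    have e1 : ρ (x⁻¹ * g * x) w = ρ x⁻¹ (ρ (g * x) w) := by
      rw [← Module.End.mul_apply, ← map_mul, mul_assoc]
    have e2 : ∀ v : W, ρ x (ρ x⁻¹ v) = v := by
      intro v
      rw [← Module.End.mul_apply, ← map_mul, mul_inv_cancel, map_one, Module.End.one_apply]
    have e3 : ∀ v : W, ρ x⁻¹ (ρ x v) = v := by
      intro v
      rw [← Module.End.mul_apply, ← map_mul, inv_mul_cancel, map_one, Module.End.one_apply]
    rw [e1]
    constructor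
    · rintro (h | h)
      · left
        rw [← e2 (ρ (g * x) w), h]
      · right
        rw [← e2 (ρ (g * x) w), h, map_neg]
    · rintro (h | h)
      · left
        rw [h, e3]
      · right
        rw [h, map_neg, e3]
  have hQ : SX.IsQ ρ w φ := by
    refine ⟨hφs, fun g => ?_⟩
    rw [hker]
    exact forall_congr' fun x => hmemH g x
  have hHtop : H ≠ ⊤ := PS.H1_ne_top ρ w (by omega)
  obtain ⟨g₀, hg₀⟩ : ∃ g₀ : G, g₀ ∉ H := by
    by_contra hcon
    push Not at hcon
    exact hHtop (eq_top_iff.2 fun x _ => hcon x)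
  have hφg₀ : φ g₀ ≠ 1 := by
    intro h
    have := (hker g₀).1 h 1
    rw [inv_one, one_mul, mul_one] at this
    exact hg₀ this
  have hnt : Nontrivial (MulAction.toPermHom G (G ⧸ H)).range := ⟨φ g₀, 1, hφg₀⟩
  -- no solvable normal subgroups
  have hsol : ∀ N : Subgroup (MulAction.toPermHom G (G ⧸ H)).range, N.Normal →
      IsSolvable N → N = ⊥ := by
    intro N hN hNs
    by_contra hne
    obtain ⟨A', hA'n, -, hA'ne, hA'c⟩ := exists_abelian_normal N hNs hne
    have hA'c' : (A'.comap φ).Normal := hA'n.comap φ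
    obtain ⟨r, hr2, hr4, t, hli, hcard⟩ := groupA ρ w hw (A'.comap φ)
      (by
        by_contra hcon
        push Not at hcon
        apply hA'ne
        rw [Subgroup.eq_bot_iff_forall]
        intro b hb
        obtain ⟨a, rfl⟩ := hφs b
        rw [hker]
        intro t
        have h5 : t⁻¹ * a * t⁻¹⁻¹ ∈ A'.comap φ := hA'c'.conj_mem a hb t⁻¹
        rw [inv_inv] at h5
        rw [hH, PS.mem_H1]
        by_cases h7 : ρ (t⁻¹ * a * t) w = w
        · left; exact h7
        · right; exact hcon _ h5 h7)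
      (by
        intro a ha b hb
        have h5 : φ (a * b * a⁻¹ * b⁻¹) = 1 := by
          rw [map_mul, map_mul, map_mul, map_inv, map_inv]
          exact hA'c _ ha _ hb
        have h6 := (hker _).1 h5 1
        rw [inv_one, one_mul, mul_one] at h6
        exact h6)
    have h8 := hB r hr2 (by omega) t hli
    have h9 : 512 * SX.osz ρ w ^ (r - 1) ≤ max K₁ 512 * SX.osz ρ w ^ (r - 1) :=
      Nat.mul_le_mul_right _ (le_max_right _ _)
    exact absurd (h9.trans_lt h8) (not_lt.2 hcard)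
  have hfaith : FaithfulSMul (MulAction.toPermHom G (G ⧸ H)).range (G ⧸ H) := inferInstance
  obtain ⟨N, hN, T, hT, hna, hcard⟩ := SX.exists_small κ (Y := G ⧸ H) φ hφs hsol hsf
  have hcardY : Nat.card (G ⧸ H) ≤ SX.osz ρ w := PS.index_H1_le ρ w
  obtain ⟨r, hr2, hr6, u, hu, hle⟩ := hX ρ w φ hQ hn1 N T hN hT hna
    (hcard.trans (Nat.pow_le_pow_left hcardY κ))
  have h8 := hB r hr2 hr6 u hu
  have h9 : K₁ * SX.osz ρ w ^ (r - 1) ≤ max K₁ 512 * SX.osz ρ w ^ (r - 1) :=
    Nat.mul_le_mul_right _ (le_max_left _ _)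
  omega

end Pool.Agent.Lib.MP_7ab245_nt.Solv.FM
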