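import Mathlib
import Pool.Agent.Lib.MP_7ab245_nt.Solv.FM.GoodQ
import Pool.Agent.Lib.MP_7ab245_nt.Solv.FM.Group
import Pool.Agent.Lib.MP_7ab245_nt.Solv.FM.AltSection

/-! The Galois group of a good polynomial of large degree. -/

set_option autoImplicit false

open Polynomial

namespace Pool.Agent.Lib.MP_7ab245_nt.Solv.FM

open Pool.Agent.Lib.MP_7ab245_nt.Solv

/-- a primitive section of small index which contains the alternating group or has only large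
conjugacy classes -/
def HasSection (κ n : ℕ) (G : Type) [Group G] [Finite G] : Prop :=
  ∃ (S : Subgroup G) (H : Subgroup S), IsCoatom H ∧ κ < H.index ∧ S.index ^ κ ≤ H.index ∧
    n ≤ 2 * (H.index * S.index) ∧
    ((@alternatingGroup (S ⧸ H) (Fintype.ofFinite _) (Classical.decEq _) ≤ cosetPerms H ∧
      ∃ A : Subgroup G, A.IsSubnormal ∧
        ∃ φ : A →* alternatingGroup (Fin H.index), Function.Surjective φ) ∨
      ∀ γ : cosetPerms H, γ ≠ 1 → H.index ^ κ < (Subgroup.centralizer {γ}).index)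

theorem hasSection (κ : ℕ) : ∃ R D n₀ : ℕ, 1 ≤ D ∧ ∀ {G W : Type} [Group G] [Finite G]
    [AddCommGroup W] [Module ℚ W] (ρ : Representation ℚ G W) (w : W), n₀ ≤ SX.osz ρ w →
    SX.HypB ρ w R D → HasSection κ (SX.osz ρ w) G := by
  classical
  obtain ⟨R, D, n₀, hD, h⟩ := altSection (max κ 4)
  refine ⟨R, D, n₀, hD, ?_⟩
  intro G W _ _ _ _ ρ w hn hB
  obtain ⟨S, H, hco, hκ, hS, hosz, hor⟩ := h ρ w hn hB
  have hκ1 : κ ≤ max κ 4 := le_max_left _ _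
  have hκ2 : 4 ≤ max κ 4 := le_max_right _ _
  have hSpos : 1 ≤ S.index := Nat.pos_of_ne_zero Subgroup.index_ne_zero_of_finite
  have hHpos : 1 ≤ H.index := by omega
  refine ⟨S, H, hco, by omega, (Nat.pow_le_pow_right hSpos hκ1).trans hS, hosz, ?_⟩
  rcases hor with h1 | h1
  · left
    refine ⟨h1, ?_⟩
    exact @alt_factor G _ _ S H (Fintype.ofFinite _) (Classical.decEq _) (by omega)
      ((Nat.pow_le_pow_right hSpos (by omega)).trans hS) h1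
  · right
    intro γ hγ
    exact (Nat.pow_le_pow_right hHpos hκ1).trans_lt (h1 γ hγ)

theorem good_large (κ : ℕ) : ∃ L n₀ : ℕ, ∀ (Ω : Type) [Field Ω] [NumberField Ω]
    [IsGalois ℚ Ω] (t : ℕ) (g : ℤ[X]), Good Ω t g → t ^ L ≤ g.natDegree → n₀ ≤ g.natDegree →
    ¬ SX.SmallFactors κ (Ω ≃ₐ[ℚ] Ω) ∧ HasSection κ g.natDegree (Ω ≃ₐ[ℚ] Ω) := by
  obtain ⟨K, n₁, hgrp⟩ := not_smallFactors κ
  have hB : ∀ r : ℕ, ∃ L n : ℕ, 1 ≤ r → ∀ (Ω : Type) [Field Ω] [NumberField Ω]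
      [IsGalois ℚ Ω] (ι : Ω →+* ℂ) (t : ℕ) (g : ℤ[X]), Good Ω t g → t ^ L ≤ g.natDegree →
      n ≤ g.natDegree → ∀ (x : Ω), aeval x g = 0 → ∀ u : Fin r → (Ω ≃ₐ[ℚ] Ω),
      LinearIndependent ℚ (fun i => rep (Ω ≃ₐ[ℚ] Ω) (u i) (lg ι x)) →
      K * g.natDegree ^ (r - 1) < SX.tsz (rep (Ω ≃ₐ[ℚ] Ω)) (lg ι x) u := by
    intro r
    by_cases hr : 1 ≤ r
    · obtain ⟨L, n, hn⟩ := good_groupBQ r K hr
      exact ⟨L, n, fun _ => hn⟩
    · exact ⟨0, 0, fun h => absurd h hr⟩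
  choose L₂ n₂ hn₂ using hB
  obtain ⟨R, D, n₃, hD, hsec⟩ := hasSection κ
  have hBD : ∀ r : ℕ, ∃ L n : ℕ, 1 ≤ r → ∀ (Ω : Type) [Field Ω] [NumberField Ω]
      [IsGalois ℚ Ω] (ι : Ω →+* ℂ) (t : ℕ) (g : ℤ[X]), Good Ω t g → t ^ L ≤ g.natDegree →
      n ≤ g.natDegree → ∀ (x : Ω), aeval x g = 0 → ∀ u : Fin r → (Ω ≃ₐ[ℚ] Ω),
      LinearIndependent ℚ (fun i => rep (Ω ≃ₐ[ℚ] Ω) (u i) (lg ι x)) →
      g.natDegree ^ (r * D - 1) < SX.tsz (rep (Ω ≃ₐ[ℚ] Ω)) (lg ι x) u ^ D := by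
    intro r
    by_cases hr : 1 ≤ r
    · obtain ⟨L, n, hn⟩ := good_groupBDQ r D hr hD
      exact ⟨L, n, fun _ => hn⟩
    · exact ⟨0, 0, fun h => absurd h hr⟩
  choose L₄ n₄ hn₄ using hBD
  refine ⟨∑ r ∈ Finset.range (κ + 7), L₂ r + ∑ r ∈ Finset.range (R + 1), L₄ r,
    n₁ + ∑ r ∈ Finset.range (κ + 7), n₂ r + n₃ + ∑ r ∈ Finset.range (R + 1), n₄ r + 1, ?_⟩
  intro Ω _ _ _ t g hg ht hn
  obtain ⟨x, hx⟩ := good_root hg
  obtain ⟨ι⟩ : Nonempty (Ω →+* ℂ) := inferInstance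
  have hw : lg ι x ≠ 0 := good_lg_ne_zero ι hg x hx
  have hosz : SX.osz (rep (Ω ≃ₐ[ℚ] Ω)) (lg ι x) = g.natDegree := good_osz ι hg x hx
  refine ⟨?_, ?_⟩
  · refine hgrp (rep (Ω ≃ₐ[ℚ] Ω)) (lg ι x) hw (by rw [hosz]; omega) ?_
    intro r hr2 hr6 u hu
    rw [hosz]
    have hle : n₂ r ≤ ∑ r ∈ Finset.range (κ + 7), n₂ r :=
      Finset.single_le_sum (f := n₂) (fun _ _ => Nat.zero_le _) (Finset.mem_range.2 (by omega))
    have hleL : L₂ r ≤ ∑ r ∈ Finset.range (κ + 7), L₂ r :=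
      Finset.single_le_sum (f := L₂) (fun _ _ => Nat.zero_le _) (Finset.mem_range.2 (by omega))
    exact hn₂ r (by omega) Ω ι t g hg (pow_le_of_exponent_le (by omega) (by omega) ht) (by omega)
      x hx u hu
  · rw [← hosz]
    refine hsec (rep (Ω ≃ₐ[ℚ] Ω)) (lg ι x) (by rw [hosz]; omega) ?_
    intro r hr1 hrR u hu
    rw [hosz]
    have hle : n₄ r ≤ ∑ r ∈ Finset.range (R + 1), n₄ r :=
      Finset.single_le_sum (f := n₄) (fun _ _ => Nat.zero_le _) (Finset.mem_range.2 (by omega))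
    have hleL : L₄ r ≤ ∑ r ∈ Finset.range (R + 1), L₄ r :=
      Finset.single_le_sum (f := L₄) (fun _ _ => Nat.zero_le _) (Finset.mem_range.2 (by omega))
    exact hn₄ r hr1 Ω ι t g hg (pow_le_of_exponent_le (by omega) (by omega) ht) (by omega)
      x hx u hu

end Pool.Agent.Lib.MP_7ab245_nt.Solv.FM
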