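import Mathlib
import Pool.Agent.Lib.MP_7ab245_nt.Solv.FM.AltSection

/-! Theorem B in group form: all minimal overgroups of the stabiliser of the line. -/

set_option autoImplicit false

open MulAction

namespace Pool.Agent.Lib.MP_7ab245_nt.Solv.FM

open Pool.Agent.Lib.MP_7ab245_nt.Solv AT SX

/-- Theorem B in group form: all minimal overgroups `S` of the stabiliser of the line have small index,
and the primitive groups induced by them contain the alternating group or have only large conjugacy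
classes. -/
theorem altEvery (κ : ℕ) : ∃ R D n₀ : ℕ, 1 ≤ D ∧ ∀ {G W : Type} [Group G] [Finite G]
    [AddCommGroup W] [Module ℚ W] (ρ : Representation ℚ G W) (w : W), n₀ ≤ osz ρ w →
    HypB ρ w R D → H1 ρ w ≠ ⊤ ∧ ∀ (S : Subgroup G), H1 ρ w ≤ S →
      IsCoatom ((H1 ρ w).subgroupOf S) → κ < ((H1 ρ w).subgroupOf S).index ∧
      S.index ^ κ ≤ ((H1 ρ w).subgroupOf S).index ∧
      (H1 ρ w).index = ((H1 ρ w).subgroupOf S).index * S.index ∧
      ((@alternatingGroup (S ⧸ ((H1 ρ w).subgroupOf S)) (Fintype.ofFinite _) (Classical.decEq _)) ≤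
          cosetPerms ((H1 ρ w).subgroupOf S) ∨
        ∀ γ : cosetPerms ((H1 ρ w).subgroupOf S), γ ≠ 1 →
          ((H1 ρ w).subgroupOf S).index ^ κ < (Subgroup.centralizer {γ}).index) := by
  classical
  obtain ⟨R, D, n₁, hD, hL⟩ := hypL (2 * κ + 2) (2 * (κ + 3)) (by omega)
  obtain ⟨n₂, hroot⟩ := exists_root (κ + 3)
    (2 * (9 * κ ^ 2 + κ + 1) * (2 ^ (2 * κ + 2)) ^ (κ + 3)) (by omega)
  refine ⟨R, D, n₁ + n₂ + 3, hD, ?_⟩
  intro G W _ _ _ _ ρ w hn hB
  have hHL := hL ρ w (by omega) hB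
  obtain ⟨q, hq1, hq2, hq3⟩ := hroot (osz ρ w) (by omega)
  have hNT := NT_lines ρ w (by omega) hHL hq2
  set Q := 2 ^ (2 * κ + 2) * q with hQ
  have hQ1 : 1 ≤ Q := Nat.mul_pos (by positivity) hq1
  have hosz2 := osz_le_two_mul ρ w
  have hbig : (9 * κ ^ 2 + κ + 1) * Q ^ (κ + 3) < Nat.card (G ⧸ H1 ρ w) := by
    have h1 : 2 * ((9 * κ ^ 2 + κ + 1) * Q ^ (κ + 3)) < osz ρ w := by
      calc 2 * ((9 * κ ^ 2 + κ + 1) * Q ^ (κ + 3)) =
          2 * (9 * κ ^ 2 + κ + 1) * (2 ^ (2 * κ + 2)) ^ (κ + 3) * q ^ (κ + 3) := by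
            rw [hQ, mul_pow]
            ring
        _ < _ := hq3
    omega
  have hHtop : H1 ρ w ≠ ⊤ := PS.H1_ne_top ρ w (by omega)
  refine ⟨hHtop, ?_⟩
  intro S hHS hco
  set H : Subgroup S := (H1 ρ w).subgroupOf S with hH
  -- the action of `S` on the cosets
  set φ : S →* cosetPerms H := (toPermHom S (S ⧸ H)).rangeRestrict with hφ
  have hφs : Function.Surjective φ := MonoidHom.rangeRestrict_surjective _
  have hφsm : ∀ (s : S) (x : S ⧸ H), φ s • x = s • x := fun s x => rfl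
  set a : S ⧸ H := ((1 : S) : S ⧸ H) with ha
  set b : G ⧸ H1 ρ w := ((1 : G) : G ⧸ H1 ρ w) with hb
  have hsa : ∀ s : S, φ s • a = (s : S ⧸ H) := by
    intro s
    rw [hφsm, ha, MulAction.Quotient.smul_coe, smul_eq_mul, mul_one]
  have hsb : ∀ g : G, g • b = (g : G ⧸ H1 ρ w) := by
    intro g
    rw [hb, MulAction.Quotient.smul_coe, smul_eq_mul, mul_one]
  have hat : ∀ x : S ⧸ H, ∃ γ : cosetPerms H, γ • a = x := by
    intro x
    obtain ⟨s, rfl⟩ := QuotientGroup.mk_surjective x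
    exact ⟨φ s, hsa s⟩
  have hbt : ∀ y : G ⧸ H1 ρ w, ∃ g : G, g • b = y := by
    intro y
    obtain ⟨g, rfl⟩ := QuotientGroup.mk_surjective y
    exact ⟨g, hsb g⟩
  have hkey : ∀ s t : S, φ s • a = φ t • a ↔ (s : G) • b = (t : G) • b := by
    intro s t
    rw [hsa, hsa, hsb, hsb, QuotientGroup.eq, QuotientGroup.eq, hH, Subgroup.mem_subgroupOf]
    rfl
  have hstab : stabilizer G b = H1 ρ w := by
    rw [hb]
    ext g
    rw [mem_stabilizer_iff, hsb, eq_comm, QuotientGroup.eq, inv_one, one_mul]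
  have hne : ∃ s ∈ S, s • b ≠ b := by
    by_contra hcon
    push Not at hcon
    apply hco.1
    rw [eq_top_iff]
    intro s _
    rw [hH, Subgroup.mem_subgroupOf, ← hstab, mem_stabilizer_iff]
    exact hcon s s.2
  have hR2 : 2 ≤ 2 * κ + 2 := by omega
  have hSidx : S.index ≤ Q :=
    index_le S φ a b hNT hR2 hφs hat hbt hkey (by rw [hstab]; exact hHS) hne
  have hcs : Nat.card (G ⧸ H1 ρ w) = Nat.card (S ⧸ H) * S.index :=
    card_sub S φ a b hφs hat hbt hkey (by rw [hstab]; exact hHS)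
  have hSpos : 0 < S.index := Nat.pos_of_ne_zero Subgroup.index_ne_zero_of_finite
  have hidx : H.index = Nat.card (S ⧸ H) := rfl
  have hmQ : Nat.card (G ⧸ H1 ρ w) ≤ Q * H.index := by
    rw [hcs, hidx, mul_comm]
    exact Nat.mul_le_mul_right _ hSidx
  have hbig2 : (9 * κ ^ 2 + κ + 1) * Q ^ (κ + 2) < H.index := by
    apply Nat.lt_of_mul_lt_mul_left (a := Q)
    calc Q * ((9 * κ ^ 2 + κ + 1) * Q ^ (κ + 2)) = (9 * κ ^ 2 + κ + 1) * Q ^ (κ + 3) := by ring
      _ < _ := hbig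
      _ ≤ _ := hmQ
  have hQpow : ∀ j, 1 ≤ Q ^ j := fun j => Nat.one_le_pow _ _ hQ1
  have hκ : κ < H.index := by
    calc κ ≤ 9 * κ ^ 2 + κ + 1 := by omega
      _ = (9 * κ ^ 2 + κ + 1) * 1 := (mul_one _).symm
      _ ≤ (9 * κ ^ 2 + κ + 1) * Q ^ (κ + 2) := Nat.mul_le_mul_left _ (hQpow _)
      _ < _ := hbig2
  have hQκ : Q ^ κ ≤ H.index := by
    calc Q ^ κ ≤ Q ^ (κ + 2) := Nat.pow_le_pow_right hQ1 (by omega)
      _ ≤ (9 * κ ^ 2 + κ + 1) * Q ^ (κ + 2) := Nat.le_mul_of_pos_left _ (by omega)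
      _ ≤ _ := hbig2.le
  have hSκ : S.index ^ κ ≤ H.index := (Nat.pow_le_pow_left hSidx κ).trans hQκ
  refine ⟨hκ, hSκ, by rw [hidx, ← hcs]; rfl, ?_⟩
  by_cases hcl : ∀ γ : cosetPerms H, γ ≠ 1 → H.index ^ κ < (Subgroup.centralizer {γ}).index
  · exact Or.inr hcl
  · left
    push Not at hcl
    obtain ⟨γ, hγ, hγc⟩ := hcl
    rw [← cls_eq] at hγc
    have hnt : Nontrivial (S ⧸ H) := by
      rw [← Finite.one_lt_card_iff_nontrivial, ← hidx]
      have := hQpow κ
      have h0 : (1 : ℕ) ≤ (9 * κ ^ 2 + κ + 1) * Q ^ (κ + 2) :=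
        Nat.mul_pos (by omega) (hQpow _)
      omega
    have hle : Nat.card (S ⧸ H) ≤ Nat.card (G ⧸ H1 ρ w) := by
      rw [hcs]
      exact Nat.le_mul_of_pos_right _ hSpos
    have hNT1 := NT_sub S φ a b hNT hφs hat hkey hle
    have hNT2 : NT (cosetPerms H) (S ⧸ H) (Q * Q) (2 * κ + 2) := by
      intro ι _ hι x hx
      exact (hNT1 ι hι x hx).trans (Nat.mul_le_mul_right _ (Nat.mul_le_mul_left _ hSidx))
    have hmax : ∀ L : Subgroup G, stabilizer G b ≤ L → L ≤ S → L = stabilizer G b ∨ L = S := by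
      intro L h1 h2
      rw [hstab] at h1 ⊢
      by_cases h3 : L = S
      · exact Or.inr h3
      · left
        have h4 : H ≤ L.subgroupOf S := Subgroup.comap_mono h1
        rcases eq_or_ne (L.subgroupOf S) H with h5 | h5
        · apply le_antisymm _ h1
          intro g hg
          have h6 : (⟨g, h2 hg⟩ : S) ∈ L.subgroupOf S := Subgroup.mem_subgroupOf.2 hg
          rw [h5, hH, Subgroup.mem_subgroupOf] at h6
          exact h6
        · exfalso
          have h6 := hco.2 _ (lt_of_le_of_ne h4 h5.symm)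
          rw [Subgroup.subgroupOf_eq_top] at h6
          exact h3 (le_antisymm h2 h6)
    have hprim : IsPreprimitive (cosetPerms H) (S ⧸ H) :=
      prim_sub S φ a b hφs (by rw [hstab]; exact hHS) hat hkey hmax
    have hfaith : FaithfulSMul (cosetPerms H) (S ⧸ H) := inferInstance
    have hb1 : Q * Q * cls γ < Nat.card (S ⧸ H) ^ (κ + 1) := by
      calc Q * Q * cls γ ≤ Q * Q * H.index ^ κ := Nat.mul_le_mul_left _ hγc
        _ < H.index * H.index ^ κ := by
          apply Nat.mul_lt_mul_of_pos_right _ (Nat.pow_pos (by omega))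
          calc Q * Q = Q ^ 2 := (sq Q).symm
            _ ≤ Q ^ (κ + 2) := Nat.pow_le_pow_right hQ1 (by omega)
            _ ≤ (9 * κ ^ 2 + κ + 1) * Q ^ (κ + 2) := Nat.le_mul_of_pos_left _ (by omega)
            _ < _ := hbig2
        _ = H.index ^ (κ + 1) := (pow_succ' _ _).symm
    have hb2 : Q * Q * (3 * κ) ^ 2 < Nat.card (S ⧸ H) := by
      calc Q * Q * (3 * κ) ^ 2 = (9 * κ ^ 2) * Q ^ 2 := by ring
        _ ≤ (9 * κ ^ 2 + κ + 1) * Q ^ (κ + 2) :=
          Nat.mul_le_mul (by omega) (Nat.pow_le_pow_right hQ1 (by omega))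
        _ < _ := hbig2
    have h7 := @alternating_le (cosetPerms H) (S ⧸ H) _ _ _ _ hfaith (Classical.decEq _)
      (Fintype.ofFinite _) hprim (Q * Q) κ hNT2 γ hγ hb1 hb2
    intro σ hσ
    obtain ⟨δ, hδ⟩ := h7 hσ
    have h8 : (δ : Equiv.Perm (S ⧸ H)) = σ := by
      rw [← hδ]
      rfl
    rw [← h8]
    exact δ.2

end Pool.Agent.Lib.MP_7ab245_nt.Solv.FM
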