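import Mathlib
import Pool.Agent.Lib.MP_7ab245_nt.Solv.FM.Good
import Pool.Agent.Lib.MP_7ab245_nt.Solv.FM.Every

/-! The stabiliser of a root up to inversion and roots of unity. -/

set_option autoImplicit false

open Polynomial

namespace Pool.Agent.Lib.MP_7ab245_nt.Solv.FM

open Pool.Agent.Lib.MP_7ab245_nt.Solv

/-- the automorphisms which map `x` to `x` or `1 / x`, up to a root of unity -/
def lineStab {E : Type} [Field E] [Algebra ℚ E] (x : E) : Subgroup (E ≃ₐ[ℚ] E) where
  carrier := {s | ∃ k : ℕ, 0 < k ∧ ((s x) ^ k = x ^ k ∨ (s x) ^ k * x ^ k = 1)}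
  one_mem' := ⟨1, one_pos, Or.inl rfl⟩
  mul_mem' := by
    rintro s t ⟨l, hl, hs⟩ ⟨k, hk, ht⟩
    refine ⟨k * l, Nat.mul_pos hk hl, ?_⟩
    have e1 : (s * t) x = s (t x) := rfl
    rw [e1]
    have hs' : (s x) ^ (k * l) = x ^ (k * l) ∨ (s x) ^ (k * l) * x ^ (k * l) = 1 := by
      rcases hs with h | h
      · left
        rw [mul_comm k l, pow_mul, h, ← pow_mul]
      · right
        rw [mul_comm k l, pow_mul, pow_mul, ← mul_pow, h, one_pow]
    have ht' : (s (t x)) ^ (k * l) = (s x) ^ (k * l) ∨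
        (s (t x)) ^ (k * l) * (s x) ^ (k * l) = 1 := by
      rcases ht with h | h
      · left
        have h2 := congrArg s h
        rw [map_pow, map_pow] at h2
        rw [pow_mul, h2, ← pow_mul]
      · right
        have h2 := congrArg s h
        rw [map_mul, map_pow, map_pow, map_one] at h2
        rw [pow_mul, pow_mul, ← mul_pow, h2, one_pow]
    rcases ht' with h1 | h1
    · rw [h1]
      exact hs'
    · rcases hs' with h2 | h2
      · right
        rw [← h2]
        exact h1
      · left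
        have h3 : (s x) ^ (k * l) ≠ 0 := left_ne_zero_of_mul_eq_one h2
        apply mul_right_cancel₀ h3
        rw [h1, mul_comm, h2]
  inv_mem' := by
    rintro s ⟨k, hk, h⟩
    refine ⟨k, hk, ?_⟩
    have e1 : s ((s⁻¹) x) = x := AlgEquiv.apply_symm_apply s x
    rcases h with h | h
    · left
      apply s.injective
      rw [map_pow, e1, map_pow, h]
    · right
      apply s.injective
      rw [map_mul, map_pow, e1, map_pow, map_one, mul_comm]
      exact h

variable {Ω : Type} [Field Ω] [NumberField Ω] [IsGalois ℚ Ω] {t : ℕ} {g : ℤ[X]} (ι : Ω →+* ℂ)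

theorem lineStab_eq (hg : Good Ω t g) (x : Ω) (hx : aeval x g = 0) :
    lineStab x = SX.H1 (rep (Ω ≃ₐ[ℚ] Ω)) (lg ι x) := by
  ext s
  have hx0 := root_ne_zero' hg.coeff x hx
  have hsx : aeval (s x) g = 0 := by rw [aeval_aut, hx, map_zero]
  have hs0 := root_ne_zero' hg.coeff _ hsx
  have hmem : s ∈ SX.H1 (rep (Ω ≃ₐ[ℚ] Ω)) (lg ι x) ↔
      lg ι (s x) = lg ι x ∨ lg ι (s x) = -lg ι x := by
    rw [← rep_lg]
    exact Iff.rfl
  rw [hmem]
  constructor
  · rintro ⟨k, hk, h | h⟩
    · left
      funext u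
      change Real.log ‖ι (u (s x))‖ = Real.log ‖ι (u x)‖
      have h1 : ‖ι (u (s x))‖ ^ k = ‖ι (u x)‖ ^ k := by
        have h2 := congrArg (fun z => ‖ι (u z)‖) h
        simp only [map_pow, norm_pow] at h2
        exact h2
      rw [(pow_left_inj₀ (norm_nonneg _) (norm_nonneg _) hk.ne').1 h1]
    · right
      have h2 : lg ι (s x * x) = 0 := by
        funext u
        change Real.log ‖ι (u (s x * x))‖ = 0
        have h1 : ‖ι (u (s x * x))‖ ^ k = 1 ^ k := by
          have h2 := congrArg (fun z => ‖ι (u z)‖) h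
          rw [← mul_pow] at h2
          simp only [map_pow, norm_pow, map_one, norm_one] at h2
          rw [h2, one_pow]
        rw [(pow_left_inj₀ (norm_nonneg _) zero_le_one hk.ne').1 h1, Real.log_one]
      rw [lg_mul ι _ _ hs0 hx0] at h2
      exact eq_neg_of_add_eq_zero_left h2
  · rintro (h | h)
    · obtain ⟨k, hk, hk1⟩ := pow_eq_of_lg_eq ι hg.monic hg.coeff x (s x) hx hsx h
      exact ⟨k, hk, Or.inl hk1⟩
    · have hyint : IsIntegral ℤ (s x) := ⟨g, hg.monic, by rw [← Polynomial.aeval_def]; exact hsx⟩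
      have hxint : IsIntegral ℤ x := ⟨g, hg.monic, by rw [← Polynomial.aeval_def]; exact hx⟩
      obtain ⟨k, hk, hk1⟩ := torsion_of_lg_eq_zero ι (s x * x) (mul_ne_zero hs0 hx0)
        (hyint.mul hxint) (by rw [lg_mul ι _ _ hs0 hx0, h, neg_add_cancel])
      exact ⟨k, hk, Or.inr (by rw [← mul_pow]; exact hk1)⟩

/-- the index is the degree or half of the degree -/
theorem lineStab_index (hg : Good Ω t g) (x : Ω) (hx : aeval x g = 0) :
    g.natDegree = (lineStab x).index ∨ g.natDegree = 2 * (lineStab x).index := by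
  obtain ⟨ι⟩ : Nonempty (Ω →+* ℂ) := inferInstance
  have h1 : SX.osz (rep (Ω ≃ₐ[ℚ] Ω)) (lg ι x) ≤ 2 * (SX.H1 (rep (Ω ≃ₐ[ℚ] Ω)) (lg ι x)).index :=
    osz_le_two_mul _ _
  rw [← lineStab_eq ι hg x hx, good_osz ι hg x hx] at h1
  have h2 : Nat.card (Set.range fun s : Ω ≃ₐ[ℚ] Ω => s • x) = g.natDegree :=
    card_orbit_eq_natDegree g hg.monic hg.irr x hx
  have h3 : Nat.card (Set.range fun s : Ω ≃ₐ[ℚ] Ω => s • x) =
      (MulAction.stabilizer (Ω ≃ₐ[ℚ] Ω) x).index := by
    rw [MulAction.index_stabilizer]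
    rfl
  have h4 : MulAction.stabilizer (Ω ≃ₐ[ℚ] Ω) x ≤ lineStab x := by
    intro s hs
    have h5 : s x = x := hs
    exact ⟨1, one_pos, Or.inl (by rw [h5])⟩
  obtain ⟨c, hc⟩ := Subgroup.index_dvd_of_le h4
  have h6 : g.natDegree = (lineStab x).index * c := by
    rw [← h2, h3, hc]
  have h7 : 0 < (lineStab x).index := Nat.pos_of_ne_zero Subgroup.index_ne_zero_of_finite
  have h8 : 0 < g.natDegree := by
    rw [← h2, h3]
    exact Nat.pos_of_ne_zero Subgroup.index_ne_zero_of_finite
  have h9 : c ≤ 2 := by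
    by_contra hcon
    push Not at hcon
    have : 2 * (lineStab x).index < (lineStab x).index * c := by
      calc 2 * (lineStab x).index < 3 * (lineStab x).index := by omega
        _ ≤ c * (lineStab x).index := Nat.mul_le_mul_right _ hcon
        _ = _ := mul_comm _ _
    omega
  have h10 : c ≠ 0 := by
    rintro rfl
    omega
  have h11 : c = 1 ∨ c = 2 := by omega
  rcases h11 with rfl | rfl
  · left
    omega
  · right
    omega

end Pool.Agent.Lib.MP_7ab245_nt.Solv.FM
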