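import Mathlib

/-! Uniqueness of the minimal overgroup. -/

set_option autoImplicit false

namespace Pool.Agent.Lib.MP_7ab245_nt.Solv.FM

theorem coatom_of_covBy {G : Type*} [Group G] {H S : Subgroup G} (hS : H ⋖ S) :
    IsCoatom (H.subgroupOf S) := by
  constructor
  · intro h
    rw [Subgroup.subgroupOf_eq_top] at h
    exact absurd (lt_of_lt_of_le hS.lt h) (lt_irrefl H)
  · intro K hK
    have h1 : H ≤ K.map S.subtype := by
      have h2 : (H.subgroupOf S).map S.subtype ≤ K.map S.subtype := Subgroup.map_mono hK.le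
      rwa [Subgroup.subgroupOf_map_subtype, inf_eq_left.mpr hS.le] at h2
    have h2 : H < K.map S.subtype := by
      refine lt_of_le_of_ne h1 ?_
      intro h3
      apply hK.ne
      rw [h3]
      ext x
      rw [Subgroup.mem_subgroupOf, Subgroup.mem_map]
      constructor
      · rintro ⟨y, hy, hyx⟩
        have : y = x := Subtype.ext hyx
        rwa [← this]
      · intro hx
        exact ⟨x, hx, rfl⟩
    have h3 : K.map S.subtype ≤ S := by
      intro y hy
      obtain ⟨z, -, rfl⟩ := Subgroup.mem_map.mp hy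
      exact z.2
    have h4 : K.map S.subtype = S := by
      by_contra hne
      exact hS.2 h2 (lt_of_le_of_ne h3 hne)
    rw [eq_top_iff]
    intro x _
    have h5 : (x : G) ∈ K.map S.subtype := by rw [h4]; exact x.2
    obtain ⟨z, hz, hzx⟩ := Subgroup.mem_map.mp h5
    have : z = x := Subtype.ext hzx
    rwa [← this]

theorem relIndex_le_index' {G : Type*} [Group G] [Finite G] (S₀ S₁ : Subgroup G) :
    S₀.relIndex S₁ ≤ S₀.index := by
  have h := Subgroup.relIndex_le_of_le_right (H := S₀) (K := S₁) (L := ⊤) le_top (by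
    rw [Subgroup.relIndex_top_right]
    exact Subgroup.index_ne_zero_of_finite)
  rwa [Subgroup.relIndex_top_right] at h

theorem inf_eq_of_covBy {G : Type*} [Group G] {T S₀ S₁ : Subgroup G}
    (hc0 : T ⋖ S₀) (hc1 : T ⋖ S₁) (hne : S₀ ≠ S₁) : S₀ ⊓ S₁ = T := by
  have h2 : T ≤ S₀ ⊓ S₁ := le_inf hc0.le hc1.le
  rcases hc0.eq_or_eq h2 inf_le_left with h3 | h3
  · exact h3
  · exfalso
    have h4 : S₀ ≤ S₁ := by rw [← h3]; exact inf_le_right
    rcases hc1.eq_or_eq hc0.le h4 with h5 | h5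
    · exact absurd hc0.lt (by rw [h5]; exact lt_irrefl T)
    · exact hne h5

theorem cover_unique {G : Type*} [Group G] [Finite G] (T S₀ S₁ : Subgroup G) (κ : ℕ) (hκ : 2 ≤ κ)
    (hc0 : T ⋖ S₀) (hc1 : T ⋖ S₁) (h0 : κ < (T.subgroupOf S₀).index)
    (h0' : S₀.index ^ κ ≤ (T.subgroupOf S₀).index)
    (h1' : S₁.index ^ κ ≤ (T.subgroupOf S₁).index) : S₀ = S₁ := by
  by_contra hne
  have e1 : (T.subgroupOf S₁).index ≤ S₀.index := by
    have h2 : (T.subgroupOf S₁).index = T.relIndex S₁ := rfl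
    rw [h2, ← inf_eq_of_covBy hc0 hc1 hne, Subgroup.inf_relIndex_right]
    exact relIndex_le_index' S₀ S₁
  have e0 : (T.subgroupOf S₀).index ≤ S₁.index := by
    have h2 : (T.subgroupOf S₀).index = T.relIndex S₀ := rfl
    rw [h2, ← inf_eq_of_covBy hc0 hc1 hne, Subgroup.inf_relIndex_left]
    exact relIndex_le_index' S₁ S₀
  have p0 : 1 ≤ S₀.index := Nat.pos_of_ne_zero Subgroup.index_ne_zero_of_finite
  have p1 : 1 ≤ S₁.index := Nat.pos_of_ne_zero Subgroup.index_ne_zero_of_finite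
  have q0 : S₀.index ^ 2 ≤ S₁.index :=
    ((Nat.pow_le_pow_right p0 hκ).trans h0').trans e0
  have q1 : S₁.index ^ 2 ≤ S₀.index :=
    ((Nat.pow_le_pow_right p1 hκ).trans h1').trans e1
  have r0 : S₀.index ≤ S₁.index := by nlinarith
  have r1 : S₁.index ≤ 1 := by
    by_contra hcon
    push Not at hcon
    nlinarith
  omega

/-- If all minimal overgroups are large, there is only one. -/
theorem exists_least {G : Type*} [Group G] [Finite G] (T : Subgroup G) (hT : T ≠ ⊤) (κ : ℕ)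
    (hκ : 2 ≤ κ) (h : ∀ S : Subgroup G, T ≤ S → IsCoatom (T.subgroupOf S) →
      κ < (T.subgroupOf S).index ∧ S.index ^ κ ≤ (T.subgroupOf S).index) :
    ∃ S : Subgroup G, T < S ∧ IsCoatom (T.subgroupOf S) ∧ ∀ U : Subgroup G, T < U → S ≤ U := by
  obtain ⟨S, hS, -⟩ := exists_covBy_le_of_lt (lt_top_iff_ne_top.2 hT)
  refine ⟨S, hS.lt, coatom_of_covBy hS, ?_⟩
  intro U hU
  obtain ⟨S₁, hS₁, hle⟩ := exists_covBy_le_of_lt hU
  have h0 := h S hS.le (coatom_of_covBy hS)
  have h1 := h S₁ hS₁.le (coatom_of_covBy hS₁)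
  rw [cover_unique T S S₁ κ hκ hS hS₁ h0.1 h0.2 h1.2]
  exact hle

end Pool.Agent.Lib.MP_7ab245_nt.Solv.FM
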