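import Mathlib
import Pool.Agent.Lib.MP_7ab245_nt.Solv.FM.Large
import Pool.Agent.Lib.MP_7ab245_nt.Solv.FM.LineStab
import Pool.Agent.Lib.MP_7ab245_nt.Solv.FM.Unique

/-! The Galois group of a good polynomial of large degree: the smallest overgroup of the stabiliser of
a root. -/

set_option autoImplicit false

open Polynomial

namespace Pool.Agent.Lib.MP_7ab245_nt.Solv.FM

open Pool.Agent.Lib.MP_7ab245_nt.Solv

/-- the proper overgroups of `T` have a smallest element `S`, its index is small, and the group which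
it induces on `S / T` contains the alternating group or has only large conjugacy classes -/
def Cover (κ : ℕ) {G : Type} [Group G] [Finite G] (T : Subgroup G) : Prop :=
  ∃ S : Subgroup G, T < S ∧ (∀ U : Subgroup G, T < U → S ≤ U) ∧ κ < (T.subgroupOf S).index ∧
    5 ≤ (T.subgroupOf S).index ∧ S.index ^ κ ≤ (T.subgroupOf S).index ∧
    ((@alternatingGroup (S ⧸ T.subgroupOf S) (Fintype.ofFinite _) (Classical.decEq _) ≤
        cosetPerms (T.subgroupOf S) ∧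
      ∃ A : Subgroup G, A.IsSubnormal ∧
        ∃ φ : A →* alternatingGroup (Fin (T.subgroupOf S).index), Function.Surjective φ) ∨
      ∀ γ : cosetPerms (T.subgroupOf S), γ ≠ 1 →
        (T.subgroupOf S).index ^ κ < (Subgroup.centralizer {γ}).index)

theorem cover_group (κ : ℕ) : ∃ R D n₀ : ℕ, 1 ≤ D ∧ ∀ {G W : Type} [Group G] [Finite G]
    [AddCommGroup W] [Module ℚ W] (ρ : Representation ℚ G W) (w : W), n₀ ≤ SX.osz ρ w →
    SX.HypB ρ w R D → Cover κ (SX.H1 ρ w) := by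
  classical
  obtain ⟨R, D, n₀, hD, h⟩ := altEvery (max κ 4)
  refine ⟨R, D, n₀, hD, ?_⟩
  intro G W _ _ _ _ ρ w hn hB
  obtain ⟨hT, hall⟩ := h ρ w hn hB
  have hκ1 : κ ≤ max κ 4 := le_max_left _ _
  have hκ2 : 4 ≤ max κ 4 := le_max_right _ _
  obtain ⟨S, hTS, hco, hmin⟩ := exists_least (SX.H1 ρ w) hT (max κ 4) (by omega)
    (fun S h1 h2 => ⟨(hall S h1 h2).1, (hall S h1 h2).2.1⟩)
  obtain ⟨hκ, hS, -, hor⟩ := hall S hTS.le hco
  have hSpos : 1 ≤ S.index := Nat.pos_of_ne_zero Subgroup.index_ne_zero_of_finite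
  have hHpos : 1 ≤ ((SX.H1 ρ w).subgroupOf S).index := by omega
  refine ⟨S, hTS, hmin, by omega, by omega, (Nat.pow_le_pow_right hSpos hκ1).trans hS, ?_⟩
  rcases hor with h1 | h1
  · left
    refine ⟨h1, ?_⟩
    exact @alt_factor G _ _ S ((SX.H1 ρ w).subgroupOf S) (Fintype.ofFinite _) (Classical.decEq _)
      (by omega) ((Nat.pow_le_pow_right hSpos (by omega)).trans hS) h1
  · right
    intro γ hγ
    exact (Nat.pow_le_pow_right hHpos hκ1).trans_lt (h1 γ hγ)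

theorem good_cover (κ : ℕ) : ∃ L n₀ : ℕ, ∀ (Ω : Type) [Field Ω] [NumberField Ω]
    [IsGalois ℚ Ω] (t : ℕ) (g : ℤ[X]), Good Ω t g → t ^ L ≤ g.natDegree → n₀ ≤ g.natDegree →
    ∀ x : Ω, aeval x g = 0 → Cover κ (lineStab x) := by
  obtain ⟨R, D, n₃, hD, hcov⟩ := cover_group κ
  have hBD : ∀ r : ℕ, ∃ L n : ℕ, 1 ≤ r → ∀ (Ω : Type) [Field Ω] [NumberField Ω]
      [IsGalois ℚ Ω] (ι : Ω →+* ℂ) (t : ℕ) (g : ℤ[X]), Good Ω t g → t ^ L ≤ g.natDegree →
      n ≤ g.natDegree → ∀ (x : Ω), aeval x g = 0 → ∀ u : Fin r → (Ω ≃ₐ[ℚ] Ω),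
      LinearIndependent ℚ (fun i => rep (Ω ≃ₐ[ℚ] Ω) (u i) (lg ι x)) →
      g.natDegree ^ (r * D - 1) < SX.tsz (rep (Ω ≃ₐ[ℚ] Ω)) (lg ι x) u ^ D := by
    intro r
    by_cases hr : 1 ≤ r
    · obtain ⟨L, n, hn⟩ := good_groupBDQ r D hr hD
      exact ⟨L, n, fun _ => hn⟩
    · exact ⟨0, 0, fun h => absurd h hr⟩
  choose L₄ n₄ hn₄ using hBD
  refine ⟨∑ r ∈ Finset.range (R + 1), L₄ r, n₃ + ∑ r ∈ Finset.range (R + 1), n₄ r + 1, ?_⟩
  intro Ω _ _ _ t g hg ht hn x hx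
  obtain ⟨ι⟩ : Nonempty (Ω →+* ℂ) := inferInstance
  have hosz : SX.osz (rep (Ω ≃ₐ[ℚ] Ω)) (lg ι x) = g.natDegree := good_osz ι hg x hx
  rw [lineStab_eq ι hg x hx]
  refine hcov (rep (Ω ≃ₐ[ℚ] Ω)) (lg ι x) (by rw [hosz]; omega) ?_
  intro r hr1 hrR u hu
  rw [hosz]
  have hle : n₄ r ≤ ∑ r ∈ Finset.range (R + 1), n₄ r :=
    Finset.single_le_sum (f := n₄) (fun _ _ => Nat.zero_le _) (Finset.mem_range.2 (by omega))
  have hleL : L₄ r ≤ ∑ r ∈ Finset.range (R + 1), L₄ r :=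
    Finset.single_le_sum (f := L₄) (fun _ _ => Nat.zero_le _) (Finset.mem_range.2 (by omega))
  exact hn₄ r hr1 Ω ι t g hg (pow_le_of_exponent_le hleL (by omega) ht) (by omega) x hx u hu

end Pool.Agent.Lib.MP_7ab245_nt.Solv.FM
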