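import Mathlib
import Pool.Agent.Lib.MP_7ab245_nt.Solv.FM.Good
import Pool.Agent.Lib.MP_7ab245_nt.Solv.F.E1Count

/-! Removing torsion ratios without changing the Mahler measure. -/

set_option autoImplicit false

open Polynomial

namespace Pool.Agent.Lib.MP_7ab245_nt.Solv.FM

open Pool.Agent.Lib.MP_7ab245_nt.Solv

private theorem card_orbit_eq {G X : Type*} [Group G] [MulAction G X] (x : X) :
    Nat.card (Set.range fun t : G => t • x) = (MulAction.stabilizer G x).index := by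
  rw [MulAction.index_stabilizer]
  rfl

/-- if `H` contains the stabiliser of `x` and is the stabiliser of `b` -/
theorem orbit_count_eq {G X Y : Type*} [Group G] [MulAction G X] [MulAction G Y]
    (x : X) (b : Y) (H : Subgroup G) (h1 : ∀ t : G, t • x = x → t ∈ H)
    (h2 : ∀ t : G, t ∈ H ↔ t • b = b) :
    Nat.card (Set.range fun t : H => (t : G) • x) * Nat.card (Set.range fun t : G => t • b) =
      Nat.card (Set.range fun t : G => t • x) := by
  have hK : MulAction.stabilizer G x ≤ H := fun t ht => h1 t (MulAction.mem_stabilizer_iff.mp ht)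
  have hH : H = MulAction.stabilizer G b := by
    ext t
    rw [h2, MulAction.mem_stabilizer_iff]
  have e1 : Nat.card (Set.range fun t : H => (t : G) • x) =
      (MulAction.stabilizer G x).relIndex H := by
    have h3 := card_orbit_eq (G := H) x
    have h4 : MulAction.stabilizer H x = (MulAction.stabilizer G x).subgroupOf H := by
      ext t
      rw [Subgroup.mem_subgroupOf, MulAction.mem_stabilizer_iff, MulAction.mem_stabilizer_iff]
      rfl
    rw [h4] at h3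
    exact h3
  have e2 : Nat.card (Set.range fun t : G => t • b) = H.index := by
    rw [card_orbit_eq, hH]
  rw [e1, e2, card_orbit_eq x, ← Subgroup.relIndex_mul_index hK]

private theorem splits_of_root {Ω : Type} [Field Ω] [NumberField Ω] [IsGalois ℚ Ω]
    (g : ℤ[X]) (hm : g.Monic) (hi : Irreducible g) (x : Ω) (hx : aeval x g = 0) :
    (g.map (algebraMap ℤ Ω)).Splits := by
  have h1 : minpoly ℚ x = g.map (Int.castRingHom ℚ) := minpoly_eq_map g hm hi x hx
  have h2 : ((minpoly ℚ x).map (algebraMap ℚ Ω)).Splits := Normal.splits inferInstance x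
  have h3 : (algebraMap ℚ Ω).comp (Int.castRingHom ℚ) = algebraMap ℤ Ω := RingHom.ext_int _ _
  rw [h1, Polynomial.map_map, h3] at h2
  exact h2

/-- the constant coefficient of the minimal polynomial of a unit -/
theorem coeff_minpoly_unit {Ω : Type} [Field Ω] [NumberField Ω] (b : Ω) (hb0 : b ≠ 0)
    (hb : IsIntegral ℤ b) (hb' : IsIntegral ℤ b⁻¹) : |(minpoly ℤ b).coeff 0| = 1 := by
  set q := minpoly ℤ b⁻¹ with hq
  have hqm : q.Monic := minpoly.monic hb'
  have h1 : aeval b q.reverse = 0 := by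
    have h2 : aeval b⁻¹ q = 0 := minpoly.aeval ℤ b⁻¹
    rw [aeval_def] at h2 ⊢
    let _ := invertibleOfNonzero hb0
    have h3 := (Polynomial.eval₂_reverse_eq_zero_iff (algebraMap ℤ Ω) b q.reverse)
    have h4 := (Polynomial.eval₂_reverse_eq_zero_iff (algebraMap ℤ Ω) (b⁻¹) q).2
    have h5 : eval₂ (algebraMap ℤ Ω) (⅟b) q = 0 := by
      rw [invOf_eq_inv]
      exact h2
    -- use the version with the inverse of `b⁻¹`
    let _ := invertibleOfNonzero (inv_ne_zero hb0)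
    have h6 := (Polynomial.eval₂_reverse_eq_zero_iff (algebraMap ℤ Ω) b⁻¹ q).2 h2
    rw [invOf_eq_inv, inv_inv] at h6
    exact h6
  have h7 : minpoly ℤ b ∣ q.reverse := minpoly.isIntegrallyClosed_dvd hb h1
  have h8 : q.reverse.coeff 0 = 1 := by
    rw [coeff_zero_reverse]
    exact hqm
  obtain ⟨c, hc⟩ := h7
  rw [hc, mul_coeff_zero] at h8
  exact Int.isUnit_iff_abs_eq.1 (IsUnit.of_mul_eq_one _ h8)

/-- the automorphisms which change `x` by a root of unity -/
def ratioH {Ω : Type} [Field Ω] [NumberField Ω] (x : Ω) : Subgroup (Ω ≃ₐ[ℚ] Ω) where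
  carrier := {t | ∃ k : ℕ, 0 < k ∧ (t x) ^ k = x ^ k}
  one_mem' := ⟨1, one_pos, rfl⟩
  mul_mem' := by
    rintro t u ⟨k, hk, hk'⟩ ⟨l, hl, hl'⟩
    refine ⟨k * l, Nat.mul_pos hk hl, ?_⟩
    have e1 : (t * u) x = t (u x) := rfl
    have e2 : (t (u x)) ^ l = (t x) ^ l := by rw [← map_pow, hl', map_pow]
    rw [e1, mul_comm k l, pow_mul, e2, ← pow_mul, mul_comm l k, pow_mul, hk', pow_mul]
  inv_mem' := by
    rintro t ⟨k, hk, hk'⟩
    refine ⟨k, hk, ?_⟩
    have e1 : t ((t⁻¹) x) = x := AlgEquiv.apply_symm_apply t x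
    apply t.injective
    rw [map_pow, e1, map_pow, hk']

/-- If two roots of `g` have a torsion ratio, there is a polynomial of smaller degree with the same
Mahler measure. -/
theorem exists_smaller {Ω : Type} [Field Ω] [NumberField Ω] [IsGalois ℚ Ω] {g : ℤ[X]}
    (hm : g.Monic) (hi : Irreducible g) (h1g : 1 < M g) (hc : |g.coeff 0| = 1)
    (x : Ω) (hx : aeval x g = 0) (s : Ω ≃ₐ[ℚ] Ω) (k : ℕ) (hk : 0 < k)
    (h : (s x) ^ k = x ^ k) (hne : s x ≠ x) : ∃ g' : ℤ[X], g'.Monic ∧ Irreducible g' ∧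
      (g'.map (algebraMap ℤ Ω)).Splits ∧ |g'.coeff 0| = 1 ∧ M g' = M g ∧
      g'.natDegree < g.natDegree := by
  classical
  obtain ⟨ι⟩ : Nonempty (Ω →+* ℂ) := inferInstance
  set Δ : Set Ω := Set.range fun t : ratioH x => (t : Ω ≃ₐ[ℚ] Ω) • x with hΔ
  have hΔfin : Δ.Finite := Set.finite_range _
  set D : Finset Ω := hΔfin.toFinset with hD
  have hmem : ∀ y, y ∈ D ↔ ∃ t ∈ ratioH x, t x = y := by
    intro y
    rw [hD, Set.Finite.mem_toFinset, hΔ]
    constructor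
    · rintro ⟨t, rfl⟩
      exact ⟨t, t.2, rfl⟩
    · rintro ⟨t, ht, rfl⟩
      exact ⟨⟨t, ht⟩, rfl⟩
  have hcardD : Nat.card Δ = D.card := by
    rw [Nat.card_coe_set_eq, Set.ncard_eq_toFinset_card _ hΔfin]
  have hd2 : 2 ≤ D.card := by
    have h1 : x ∈ D := (hmem x).2 ⟨1, (ratioH x).one_mem, rfl⟩
    have h2 : s x ∈ D := (hmem _).2 ⟨s, ⟨k, hk, h⟩, rfl⟩
    exact Finset.one_lt_card.2 ⟨x, h1, s x, h2, fun h3 => hne h3.symm⟩
  set b : Ω := ∏ y ∈ D, y with hb
  have hroot : ∀ y ∈ D, aeval y g = 0 := by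
    intro y hy
    obtain ⟨u, -, rfl⟩ := (hmem y).1 hy
    rw [aeval_aut, hx, map_zero]
  have hbfix : ∀ t ∈ ratioH x, t • b = b := by
    intro t ht
    change t b = b
    rw [hb, map_prod]
    refine Finset.prod_bij (fun y _ => t y) ?_ ?_ ?_ ?_
    · intro y hy
      obtain ⟨u, hu, rfl⟩ := (hmem y).1 hy
      exact (hmem _).2 ⟨t * u, (ratioH x).mul_mem ht hu, rfl⟩
    · intro y _ z _ hyz
      exact t.injective hyz
    · intro y hy
      obtain ⟨u, hu, rfl⟩ := (hmem y).1 hy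
      refine ⟨(t⁻¹ * u) x, (hmem _).2 ⟨t⁻¹ * u, (ratioH x).mul_mem ((ratioH x).inv_mem ht) hu,
        rfl⟩, ?_⟩
      exact AlgEquiv.apply_symm_apply t (u x)
    · intro y _; rfl
  -- the logarithmic norms
  have hnorm : ∀ (t : Ω ≃ₐ[ℚ] Ω), ∀ y ∈ D, ‖ι (t y)‖ = ‖ι (t x)‖ := by
    intro t y hy
    obtain ⟨u, ⟨l, hl, hl'⟩, rfl⟩ := (hmem y).1 hy
    have h1 : (ι (t (u x))) ^ l = (ι (t x)) ^ l := by
      rw [← map_pow, ← map_pow, hl', map_pow, map_pow]
    have h2 : ‖ι (t (u x))‖ ^ l = ‖ι (t x)‖ ^ l := by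
      rw [← norm_pow, ← norm_pow, h1]
    exact (pow_left_inj₀ (norm_nonneg _) (norm_nonneg _) hl.ne').1 h2
  have hnb : ∀ t : Ω ≃ₐ[ℚ] Ω, ‖ι (t b)‖ = ‖ι (t x)‖ ^ D.card := by
    intro t
    rw [hb, map_prod, map_prod, norm_prod, Finset.prod_congr rfl (hnorm t), Finset.prod_const]
  have hDpos : D.card ≠ 0 := by omega
  -- the stabiliser of `b`
  have hstab : ∀ t : Ω ≃ₐ[ℚ] Ω, t ∈ ratioH x ↔ t • b = b := by
    intro t
    refine ⟨hbfix t, fun htb => ?_⟩
    have htb' : t b = b := htb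
    have h1 : lg ι (t x) = lg ι x := by
      funext u
      have h2 : ‖ι ((u * t) x)‖ ^ D.card = ‖ι (u x)‖ ^ D.card := by
        rw [← hnb, ← hnb]
        change ‖ι (u (t b))‖ = _
        rw [htb']
      have h3 : ‖ι ((u * t) x)‖ = ‖ι (u x)‖ :=
        (pow_left_inj₀ (norm_nonneg _) (norm_nonneg _) hDpos).1 h2
      change Real.log ‖ι ((u * t) x)‖ = Real.log ‖ι (u x)‖
      rw [h3]
    obtain ⟨l, hl, hl'⟩ := pow_eq_of_lg_eq ι hm hc x (t x) hx (by rw [aeval_aut, hx, map_zero]) h1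
    exact ⟨l, hl, hl'⟩
  have hcount := orbit_count_eq (G := Ω ≃ₐ[ℚ] Ω) x b (ratioH x) (fun t ht => ⟨1, one_pos, by
    have : t x = x := ht
    rw [this]⟩) hstab
  rw [← hΔ, hcardD] at hcount
  have hox : Nat.card (Set.range fun t : Ω ≃ₐ[ℚ] Ω => t • x) = g.natDegree :=
    card_orbit_eq_natDegree g hm hi x hx
  rw [hox] at hcount
  have hsum : ∑ t : Ω ≃ₐ[ℚ] Ω, Real.posLog ‖ι (t b)‖ =
      D.card * ∑ t : Ω ≃ₐ[ℚ] Ω, Real.posLog ‖ι (t x)‖ := by
    rw [Finset.mul_sum]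
    refine Finset.sum_congr rfl fun t _ => ?_
    rw [hnb, Real.posLog_pow]
  -- the minimal polynomial of `b`
  have hxint : ∀ y ∈ D, IsIntegral ℤ y := by
    intro y hy
    exact ⟨g, hm, by rw [← aeval_def]; exact hroot y hy⟩
  have hxint' : ∀ y ∈ D, IsIntegral ℤ y⁻¹ := fun y hy =>
    isIntegral_inv_root' hm hc y (hroot y hy)
  have hbint : IsIntegral ℤ b := IsIntegral.prod _ hxint
  have hbinv : IsIntegral ℤ b⁻¹ := by
    rw [hb, ← Finset.prod_inv_distrib]
    exact IsIntegral.prod _ hxint'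
  have hb0 : b ≠ 0 := by
    rw [hb, Finset.prod_ne_zero_iff]
    exact fun y hy => root_ne_zero' hc y (hroot y hy)
  set gb := minpoly ℤ b with hgb
  have hgbm : gb.Monic := minpoly.monic hbint
  have hgbi : Irreducible gb := minpoly.irreducible hbint
  have hgb0 : aeval b gb = 0 := minpoly.aeval ℤ b
  have hob : Nat.card (Set.range fun t : Ω ≃ₐ[ℚ] Ω => t • b) = gb.natDegree :=
    card_orbit_eq_natDegree gb hgbm hgbi b hgb0
  rw [hob] at hcount
  have hf1 := height_formula ι g hm hi x hx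
  have hf2 := height_formula ι gb hgbm hgbi b hgb0
  rw [hsum] at hf2
  have hG : (0 : ℝ) < Nat.card (Ω ≃ₐ[ℚ] Ω) := by exact_mod_cast Nat.card_pos
  have hgbpos : 0 < gb.natDegree := by
    rw [← hob]
    have : Nonempty (Set.range fun t : Ω ≃ₐ[ℚ] Ω => t • b) := ⟨⟨_, ⟨1, rfl⟩⟩⟩
    have : Finite (Set.range fun t : Ω ≃ₐ[ℚ] Ω => t • b) := (Set.finite_range _).to_subtype
    exact Nat.card_pos
  have hcount' : (D.card : ℝ) * gb.natDegree = g.natDegree := by exact_mod_cast hcount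
  have hlog : Real.log (M gb) = Real.log (M g) := by
    have h1 : (Nat.card (Ω ≃ₐ[ℚ] Ω) : ℝ) * Real.log (M gb) =
        (Nat.card (Ω ≃ₐ[ℚ] Ω) : ℝ) * Real.log (M g) := by
      rw [hf1, hf2, ← hcount']
      ring
    exact mul_left_cancel₀ hG.ne' h1
  refine ⟨gb, hgbm, hgbi, splits_of_root gb hgbm hgbi b hgb0, coeff_minpoly_unit b hb0 hbint hbinv,
    ?_, ?_⟩
  · exact Real.log_injOn_pos (by
      have := one_le_M hgbm.ne_zero
      exact Set.mem_Ioi.2 (by linarith)) (Set.mem_Ioi.2 (by linarith)) hlog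
  · rw [← hcount]
    nlinarith

/-- Every irreducible unit polynomial can be replaced by a good one with the same Mahler measure. -/
theorem exists_good {Ω : Type} [Field Ω] [NumberField Ω] [IsGalois ℚ Ω] {t : ℕ} {g : ℤ[X]}
    (hm : g.Monic) (hi : Irreducible g) (hs : (g.map (algebraMap ℤ Ω)).Splits)
    (h1g : 1 < M g) (hle : M g ≤ 2 ^ t) (hc : |g.coeff 0| = 1) :
    ∃ g' : ℤ[X], Good Ω t g' ∧ M g' = M g := by
  classical
  have hex : ∃ n : ℕ, ∃ g' : ℤ[X], g'.natDegree = n ∧ g'.Monic ∧ Irreducible g' ∧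
      (g'.map (algebraMap ℤ Ω)).Splits ∧ |g'.coeff 0| = 1 ∧ M g' = M g :=
    ⟨g.natDegree, g, rfl, hm, hi, hs, hc, rfl⟩
  obtain ⟨g', hdeg, hm', hi', hs', hc', hM'⟩ := Nat.find_spec hex
  refine ⟨g', ⟨hm', hi', hs', by rw [hM']; exact h1g, by rw [hM']; exact hle, hc', ?_⟩, hM'⟩
  intro x hx s k hk hsx
  by_contra hne
  obtain ⟨g'', hm'', hi'', hs'', hc'', hM'', hlt⟩ :=
    exists_smaller hm' hi' (by rw [hM']; exact h1g) hc' x hx s k hk hsx hne
  have h1 := Nat.find_min' hex ⟨g'', rfl, hm'', hi'', hs'', hc'', hM''.trans hM'⟩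
  rw [hdeg] at hlt
  omega

end Pool.Agent.Lib.MP_7ab245_nt.Solv.FM
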