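import Mathlib
import Pool.Agent.Lib.MP_7ab245_nt.Solv.FM.Reduce
import Pool.Agent.Lib.MP_7ab245_nt.Solv.F.SmallDeg
import Pool.Agent.Lib.MP_7ab245_nt.Solv.F.Inst

/-! Polynomials all of whose good relatives have small degree: the Mahler measure is the Mahler
measure of a polynomial of bounded degree. -/

set_option autoImplicit false

open Polynomial

namespace Pool.Agent.Lib.MP_7ab245_nt.Solv.FM

open Pool.Agent.Lib.MP_7ab245_nt.Solv

private theorem abs_eq_one_of_mul {a b : ℤ} (h : |a * b| = 1) : |a| = 1 ∧ |b| = 1 := by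
  have h1 := Int.isUnit_iff_abs_eq.2 h
  exact ⟨Int.isUnit_iff_abs_eq.1 (isUnit_of_mul_isUnit_left h1),
    Int.isUnit_iff_abs_eq.1 (isUnit_of_mul_isUnit_right h1)⟩

/-- an irreducible factor of Mahler measure `> 1` can be replaced by a good polynomial -/
theorem exists_good_of_irreducible {Ω : Type} [Field Ω] [NumberField Ω] [IsGalois ℚ Ω] {t : ℕ}
    {i : ℤ[X]} (hi : Irreducible i) (hs : (i.map (algebraMap ℤ Ω)).Splits)
    (hl : |i.leadingCoeff| = 1) (ht : |i.trailingCoeff| = 1) (h1 : 1 < M i) (h2 : M i ≤ 2 ^ t) :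
    ∃ g : ℤ[X], Good Ω t g ∧ M g = M i := by
  have hc0 : i.coeff 0 ≠ 0 := by
    intro h0
    have hX : (X : ℤ[X]) ∣ i := X_dvd_iff.2 h0
    have hass : Associated (X : ℤ[X]) i := irreducible_X.associated_of_dvd hi hX
    obtain ⟨u, hu⟩ := hass
    obtain ⟨r, hr, hru⟩ := Polynomial.isUnit_iff.1 u.isUnit
    rw [← hu, M_mul, M_X, ← hru, M_C] at h1
    rcases Int.isUnit_iff.1 hr with rfl | rfl <;> simp at h1
  have htc : i.trailingCoeff = i.coeff 0 := by
    rw [trailingCoeff, natTrailingDegree_eq_zero.2 (Or.inr hc0)]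
  rw [htc] at ht
  rcases Int.isUnit_iff.1 (Int.isUnit_iff_abs_eq.2 hl) with h | h
  · exact exists_good h hi hs h1 h2 ht
  · have h3 := exists_good (Ω := Ω) (t := t) (g := -i)
      (by rw [Monic, leadingCoeff_neg, h, neg_neg])
      ((Associated.irreducible_iff (Associated.neg_right (Associated.refl i))).1 hi)
      (by rw [Polynomial.map_neg]; exact hs.neg)
      (by rw [M_neg]; exact h1) (by rw [M_neg]; exact h2)
      (by rw [coeff_neg, abs_neg]; exact ht)
    rwa [M_neg] at h3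

theorem exists_bounded (n₀ : ℕ) {c : ℝ} (hc : 0 < c)
    (hsmall : ∀ g : ℤ[X], g.natDegree ≤ n₀ → 1 < M g → 1 + c ≤ M g) {Ω : Type} [Field Ω]
    [NumberField Ω] [IsGalois ℚ Ω] {t : ℕ} (hno : ∀ g : ℤ[X], Good Ω t g → g.natDegree ≤ n₀)
    (f : ℤ[X]) : |f.leadingCoeff| = 1 → |f.trailingCoeff| = 1 →
    (f.map (algebraMap ℤ Ω)).Splits → M f ≤ 2 ^ t →
    ∃ F : ℤ[X], M F = M f ∧ F.natDegree * Real.log (1 + c) ≤ n₀ * Real.log (M f) := by
  refine WfDvdMonoid.induction_on_irreducible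
    (motive := fun f : ℤ[X] => |f.leadingCoeff| = 1 → |f.trailingCoeff| = 1 →
    (f.map (algebraMap ℤ Ω)).Splits → M f ≤ 2 ^ t →
    ∃ F : ℤ[X], M F = M f ∧ F.natDegree * Real.log (1 + c) ≤ n₀ * Real.log (M f)) f ?_ ?_ ?_
  · intro h
    simp at h
  · intro u hu _ _ _ _
    obtain ⟨r, hr, rfl⟩ := Polynomial.isUnit_iff.1 hu
    refine ⟨C r, rfl, ?_⟩
    have h1 : M (C r) = 1 := by
      rw [M_C]
      rcases Int.isUnit_iff.1 hr with rfl | rfl <;> simp
    rw [h1, natDegree_C]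
    simp
  · intro a i ha hi ih hl ht hs hM
    have hl' : |i.leadingCoeff| = 1 ∧ |a.leadingCoeff| = 1 := by
      rw [leadingCoeff_mul] at hl
      exact abs_eq_one_of_mul hl
    have ht' : |i.trailingCoeff| = 1 ∧ |a.trailingCoeff| = 1 := by
      rw [trailingCoeff_mul] at ht
      exact abs_eq_one_of_mul ht
    have hi0 : i ≠ 0 := hi.ne_zero
    have hf0 : (i * a).map (algebraMap ℤ Ω) ≠ 0 := by
      rw [Ne, Polynomial.map_eq_zero_iff (FaithfulSMul.algebraMap_injective ℤ Ω)]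
      exact mul_ne_zero hi0 ha
    have hsi : (i.map (algebraMap ℤ Ω)).Splits :=
      hs.of_dvd hf0 (Polynomial.map_dvd _ (dvd_mul_right _ _))
    have hsa : (a.map (algebraMap ℤ Ω)).Splits :=
      hs.of_dvd hf0 (Polynomial.map_dvd _ (dvd_mul_left _ _))
    have h1a : 1 ≤ M a := one_le_M ha
    have h1i : 1 ≤ M i := one_le_M hi0
    rw [M_mul] at hM ⊢
    have hMa : M a ≤ 2 ^ t := le_trans (by nlinarith) hM
    have hMi : M i ≤ 2 ^ t := le_trans (by nlinarith) hM
    obtain ⟨F, hF, hFd⟩ := ih hl'.2 ht'.2 hsa hMa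
    by_cases h1 : 1 < M i
    · obtain ⟨g, hg, hgM⟩ := exists_good_of_irreducible hi hsi hl'.1 ht'.1 h1 hMi
      have hgd := hno g hg
      have hgc := hsmall g hgd hg.one_lt
      refine ⟨g * F, by rw [M_mul, hgM, hF], ?_⟩
      have hd : ((g * F).natDegree : ℝ) = g.natDegree + F.natDegree := by
        rw [natDegree_mul hg.irr.ne_zero]
        · push_cast; ring
        · intro h0
          rw [h0] at hF
          have : M (0 : ℤ[X]) = 0 := by simp [M]
          linarith
      rw [hd, add_mul, Real.log_mul (by linarith) (by linarith), mul_add]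
      have h3 : (g.natDegree : ℝ) * Real.log (1 + c) ≤ n₀ * Real.log (M i) := by
        have h4 : Real.log (1 + c) ≤ Real.log (M i) := by
          rw [← hgM]
          exact Real.log_le_log (by linarith) hgc
        have h5 : (g.natDegree : ℝ) ≤ n₀ := by exact_mod_cast hgd
        have h6 : 0 ≤ Real.log (1 + c) := Real.log_nonneg (by linarith)
        have h7 : (0 : ℝ) ≤ n₀ := Nat.cast_nonneg _
        nlinarith
      linarith
    · have h1' : M i = 1 := le_antisymm (not_lt.1 h1) h1i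
      refine ⟨F, by rw [h1', one_mul, hF], ?_⟩
      rw [h1', one_mul]
      exact hFd

/-- Finiteness from a bound for the degrees of the good polynomials. -/
theorem finite_of_bounded (n₀ t : ℕ) : ∃ E : Set ℝ, E.Finite ∧ ∀ f : ℤ[X],
    |f.leadingCoeff| = 1 → |f.trailingCoeff| = 1 → M f ≤ 2 ^ t →
    (∀ g : ℤ[X], Good (rat f).SplittingField t g → g.natDegree ≤ n₀) → M f ∈ E := by
  obtain ⟨c, hc, hsmall⟩ := small_degree n₀
  have hlog : 0 < Real.log (1 + c) := Real.log_pos (by linarith)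
  obtain ⟨D, hD⟩ := exists_nat_ge (n₀ * Real.log (2 ^ t) / Real.log (1 + c))
  refine ⟨M '' {p : ℤ[X] | p.natDegree ≤ D ∧
    (p.map (Int.castRingHom ℂ)).mahlerMeasure ≤ ((2 ^ t : NNReal) : ℝ)},
    (Polynomial.finite_mahlerMeasure_le D (2 ^ t)).image _, ?_⟩
  intro f hl ht hM hno
  have h1f : 1 ≤ M f := by
    apply one_le_M
    rintro rfl
    simp at hl
  obtain ⟨F, hF, hFd⟩ := exists_bounded n₀ hc hsmall hno f hl ht (splits_self f) hM
  refine ⟨F, ⟨?_, ?_⟩, hF⟩
  · have h1 : (F.natDegree : ℝ) ≤ n₀ * Real.log (2 ^ t) / Real.log (1 + c) := by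
      rw [le_div_iff₀ hlog]
      refine hFd.trans ?_
      apply mul_le_mul_of_nonneg_left _ (Nat.cast_nonneg _)
      exact Real.log_le_log (by linarith) hM
    exact_mod_cast h1.trans hD
  · have : (F.map (Int.castRingHom ℂ)).mahlerMeasure = M f := hF
    rw [this]
    push_cast
    exact hM

end Pool.Agent.Lib.MP_7ab245_nt.Solv.FM
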