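import Mathlib
import Pool.Agent.Lib.MP_7ab245_nt.Solv.FM.Induct

/-! Polynomials all of whose good relatives have small degree: the Mahler measure is the Mahler
measure of a polynomial of degree `≤ C (log M) ^ L`. -/

set_option autoImplicit false

open Polynomial

namespace Pool.Agent.Lib.MP_7ab245_nt.Solv.FM

open Pool.Agent.Lib.MP_7ab245_nt.Solv

/-- the exponent `t` with `M ≤ 2 ^ t` -/
theorem exists_t (m : ℝ) (hm : 1 ≤ m) : ∃ t : ℕ, m ≤ 2 ^ t ∧
    (t : ℝ) ≤ Real.log m / Real.log 2 + 1 ∧ (m ≤ 2 → t ≤ 1) := by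
  have hl2 : 0 < Real.log 2 := Real.log_pos (by norm_num)
  have hlm : 0 ≤ Real.log m := Real.log_nonneg hm
  refine ⟨⌈Real.log m / Real.log 2⌉₊, ?_, ?_, ?_⟩
  · have h1 : Real.log m / Real.log 2 ≤ ⌈Real.log m / Real.log 2⌉₊ := Nat.le_ceil _
    rw [div_le_iff₀ hl2, ← Real.log_pow] at h1
    exact (Real.log_le_log_iff (by linarith) (by positivity)).1 h1
  · exact (Nat.ceil_lt_add_one (div_nonneg hlm hl2.le)).le
  · intro h2
    rw [Nat.ceil_le]
    rw [div_le_iff₀ hl2]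
    push_cast
    rw [one_mul]
    exact Real.log_le_log (by linarith) h2

/-- constants for the degree bound -/
theorem exists_const (L n₀ : ℕ) : ∃ C : ℝ, 0 ≤ C ∧ ∀ (m : ℝ) (d t : ℕ), 1 < m →
    (d ≤ n₀ + 1 → ∃ g : ℤ[X], g.natDegree = d ∧ M g = m) →
    (t : ℝ) ≤ Real.log m / Real.log 2 + 1 → (m ≤ 2 → t ≤ 1) → d ≤ n₀ + t ^ L →
    (d : ℝ) ≤ C * Real.log m ^ (L + 1) := by
  obtain ⟨c₀, hc₀, hsmall⟩ := small_degree (n₀ + 1)
  set c := min c₀ 1 with hc
  have hcpos : 0 < c := lt_min hc₀ one_pos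
  set lam := Real.log (1 + c) with hlam
  have hlam0 : 0 < lam := Real.log_pos (by linarith)
  have hl2 : 0 < Real.log 2 := Real.log_pos (by norm_num)
  set B := 1 / Real.log 2 + 1 / lam with hB
  have hB0 : 0 < B := by positivity
  refine ⟨(n₀ + 1) * B ^ (L + 1), by positivity, ?_⟩
  intro m d t hm hex ht ht2 hd
  have hlm : 0 < Real.log m := Real.log_pos hm
  -- lower bound for `m`
  have hmc : 1 + c ≤ m := by
    by_cases h2 : m ≤ 2
    · have h3 : t ^ L ≤ 1 := pow_le_one₀ (Nat.zero_le _) (ht2 h2)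
      obtain ⟨g, hg1, hg2⟩ := hex (by omega)
      have h4 := hsmall g (by omega) (by rw [hg2]; exact hm)
      have h5 : c ≤ c₀ := min_le_left _ _
      rw [hg2] at h4
      linarith
    · have h5 : c ≤ 1 := min_le_right _ _
      push Not at h2
      linarith
  have hlow : lam ≤ Real.log m := Real.log_le_log (by linarith) hmc
  have h1 : Real.log m / Real.log 2 + 1 ≤ B * Real.log m := by
    have h2 : 1 ≤ Real.log m / lam := by
      rw [le_div_iff₀ hlam0]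
      linarith
    calc Real.log m / Real.log 2 + 1 ≤ Real.log m / Real.log 2 + Real.log m / lam := by linarith
      _ = B * Real.log m := by rw [hB]; ring
  have h1' : 1 ≤ Real.log m / Real.log 2 + 1 := by
    have := div_nonneg hlm.le hl2.le
    linarith
  have h3 : (t : ℝ) ^ L ≤ (Real.log m / Real.log 2 + 1) ^ (L + 1) := by
    calc (t : ℝ) ^ L ≤ (Real.log m / Real.log 2 + 1) ^ L :=
          pow_le_pow_left₀ (Nat.cast_nonneg _) ht L
      _ ≤ _ := pow_le_pow_right₀ h1' (Nat.le_succ L)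
  have h4 : (1 : ℝ) ≤ (Real.log m / Real.log 2 + 1) ^ (L + 1) := one_le_pow₀ h1'
  have h5 : (d : ℝ) ≤ n₀ + (t : ℝ) ^ L := by exact_mod_cast hd
  have h6 : (0 : ℝ) ≤ n₀ := Nat.cast_nonneg _
  have h7 : (d : ℝ) ≤ (n₀ + 1) * (Real.log m / Real.log 2 + 1) ^ (L + 1) := by nlinarith
  have h8 : (Real.log m / Real.log 2 + 1) ^ (L + 1) ≤ (B * Real.log m) ^ (L + 1) :=
    pow_le_pow_left₀ (by linarith) h1 _
  calc (d : ℝ) ≤ (n₀ + 1) * (Real.log m / Real.log 2 + 1) ^ (L + 1) := h7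
    _ ≤ (n₀ + 1) * (B * Real.log m) ^ (L + 1) := by gcongr
    _ = (n₀ + 1) * B ^ (L + 1) * Real.log m ^ (L + 1) := by rw [mul_pow]; ring

private theorem abs_eq_one_of_mul {a b : ℤ} (h : |a * b| = 1) : |a| = 1 ∧ |b| = 1 := by
  have h1 := Int.isUnit_iff_abs_eq.2 h
  exact ⟨Int.isUnit_iff_abs_eq.1 (isUnit_of_mul_isUnit_left h1),
    Int.isUnit_iff_abs_eq.1 (isUnit_of_mul_isUnit_right h1)⟩

theorem exists_boundedQ (L n₀ : ℕ) : ∃ C : ℝ, 0 ≤ C ∧
    (∀ (t : ℕ) (m : ℝ) (d : ℕ), 1 < m →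
      (d ≤ n₀ + 1 → ∃ g : ℤ[X], g.natDegree = d ∧ M g = m) →
      (t : ℝ) ≤ Real.log m / Real.log 2 + 1 → (m ≤ 2 → t ≤ 1) → d ≤ n₀ + t ^ L →
      (d : ℝ) ≤ C * Real.log m ^ (L + 1)) ∧
    ∀ (Ω : Type) [Field Ω] [NumberField Ω] [IsGalois ℚ Ω],
    (∀ (t : ℕ) (g : ℤ[X]), Good Ω t g → g.natDegree ≤ n₀ + t ^ L) →
    ∀ f : ℤ[X], |f.leadingCoeff| = 1 → |f.trailingCoeff| = 1 →
    (f.map (algebraMap ℤ Ω)).Splits →
    ∃ F : ℤ[X], M F = M f ∧ (F.natDegree : ℝ) ≤ C * Real.log (M f) ^ (L + 1) := by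
  obtain ⟨C, hC, hconst⟩ := exists_const L n₀
  refine ⟨C, hC, fun t m d => hconst m d t, ?_⟩
  intro Ω _ _ _ hno f
  refine WfDvdMonoid.induction_on_irreducible
    (motive := fun f : ℤ[X] => |f.leadingCoeff| = 1 → |f.trailingCoeff| = 1 →
    (f.map (algebraMap ℤ Ω)).Splits →
    ∃ F : ℤ[X], M F = M f ∧ (F.natDegree : ℝ) ≤ C * Real.log (M f) ^ (L + 1)) f ?_ ?_ ?_
  · intro h
    simp at h
  · intro u hu _ _ _
    obtain ⟨r, hr, rfl⟩ := Polynomial.isUnit_iff.1 hu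
    refine ⟨Polynomial.C r, rfl, ?_⟩
    have h1 : M (Polynomial.C r) = 1 := by
      rw [M_C]
      rcases Int.isUnit_iff.1 hr with rfl | rfl <;> simp
    rw [h1, natDegree_C]
    simp
  · intro a i ha hi ih hl ht hs
    have hl' : |i.leadingCoeff| = 1 ∧ |a.leadingCoeff| = 1 := by
      rw [leadingCoeff_mul] at hl
      exact abs_eq_one_of_mul hl
    have ht' : |i.trailingCoeff| = 1 ∧ |a.trailingCoeff| = 1 := by
      rw [trailingCoeff_mul] at ht
      exact abs_eq_one_of_mul ht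
    have hi0 : i ≠ 0 := hi.ne_zero
    have hf0 : (i * a).map (algebraMap ℤ Ω) ≠ 0 := by
      rw [Ne, Polynomial.map_eq_zero_iff (FaithfulSMul.algebraMap_injective ℤ Ω)]
      exact mul_ne_zero hi0 ha
    have hsi : (i.map (algebraMap ℤ Ω)).Splits :=
      hs.of_dvd hf0 (Polynomial.map_dvd _ (dvd_mul_right _ _))
    have hsa : (a.map (algebraMap ℤ Ω)).Splits :=
      hs.of_dvd hf0 (Polynomial.map_dvd _ (dvd_mul_left _ _))
    have h1a : 1 ≤ M a := one_le_M ha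
    have h1i : 1 ≤ M i := one_le_M hi0
    rw [M_mul]
    obtain ⟨F, hF, hFd⟩ := ih hl'.2 ht'.2 hsa
    by_cases h1 : 1 < M i
    · obtain ⟨t, ht1, ht2, ht3⟩ := exists_t (M i) h1i
      obtain ⟨g, hg, hgM⟩ := exists_good_of_irreducible hi hsi hl'.1 ht'.1 h1 ht1
      have hgd := hno t g hg
      have hgc : (g.natDegree : ℝ) ≤ C * Real.log (M i) ^ (L + 1) :=
        hconst (M i) g.natDegree t h1 (fun _ => ⟨g, rfl, hgM⟩) ht2 ht3 hgd
      refine ⟨g * F, by rw [M_mul, hgM, hF], ?_⟩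
      have hd : ((g * F).natDegree : ℝ) = g.natDegree + F.natDegree := by
        rw [natDegree_mul hg.irr.ne_zero]
        · push_cast; ring
        · intro h0
          rw [h0] at hF
          have : M (0 : ℤ[X]) = 0 := by simp [M]
          linarith
      rw [hd, Real.log_mul (by linarith) (by linarith)]
      have h3 := pow_add_pow_le (Real.log_nonneg h1i) (Real.log_nonneg h1a)
        (Nat.succ_ne_zero L)
      calc (g.natDegree : ℝ) + F.natDegree ≤
          C * Real.log (M i) ^ (L + 1) + C * Real.log (M a) ^ (L + 1) := add_le_add hgc hFd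
        _ = C * (Real.log (M i) ^ (L + 1) + Real.log (M a) ^ (L + 1)) := by ring
        _ ≤ _ := mul_le_mul_of_nonneg_left h3 hC
    · have h1' : M i = 1 := le_antisymm (not_lt.1 h1) h1i
      refine ⟨F, by rw [h1', one_mul, hF], ?_⟩
      rw [h1', one_mul]
      exact hFd

end Pool.Agent.Lib.MP_7ab245_nt.Solv.FM
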