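import Mathlib
import Pool.Agent.Lib.MP_7ab245_nt.Solv.FM.Large
import Pool.Agent.Lib.MP_7ab245_nt.Solv.FM.InductQ

/-! The degree is bounded by a power of the logarithm of the Mahler measure, outside nearly
symmetric Galois groups. -/

set_option autoImplicit false

open Polynomial

namespace Pool.Agent.Lib.MP_7ab245_nt.Solv.FM

open Pool.Agent.Lib.MP_7ab245_nt.Solv

theorem HasSection.mono {κ n n' : ℕ} {G : Type} [Group G] [Finite G] (h : HasSection κ n G)
    (hn : n' ≤ n) : HasSection κ n' G := by
  obtain ⟨S, H, h1, h2, h3, h4, h5⟩ := h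
  exact ⟨S, H, h1, h2, h3, hn.trans h4, h5⟩

/-- an irreducible polynomial of Mahler measure `> 1` has a nonzero constant coefficient -/
theorem coeff_zero_ne_zero {i : ℤ[X]} (hi : Irreducible i) (h1 : 1 < M i) : i.coeff 0 ≠ 0 := by
  intro h0
  have hX : (X : ℤ[X]) ∣ i := X_dvd_iff.2 h0
  have hass : Associated (X : ℤ[X]) i := irreducible_X.associated_of_dvd hi hX
  obtain ⟨u, hu⟩ := hass
  obtain ⟨r, hr, hru⟩ := Polynomial.isUnit_iff.1 u.isUnit
  rw [← hu, M_mul, M_X, ← hru, M_C] at h1
  rcases Int.isUnit_iff.1 hr with rfl | rfl <;> simp at h1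

/-- a monic irreducible unit polynomial without torsion quotients of roots is good -/
theorem good_of_noTorsion {Ω : Type} [Field Ω] [NumberField Ω] {g : ℤ[X]} {t : ℕ} (hm : g.Monic)
    (hi : Irreducible g) (hs : (g.map (algebraMap ℤ Ω)).Splits) (h1 : 1 < M g)
    (hM : M g ≤ 2 ^ t) (hc : |g.coeff 0| = 1)
    (hnt : ∀ x y : ℂ, aeval x g = 0 → aeval y g = 0 → ∀ k : ℕ, 0 < k → x ^ k = y ^ k → x = y) :
    Good Ω t g := by
  refine ⟨hm, hi, hs, h1, hM, hc, ?_⟩
  intro x hx s k hk h
  obtain ⟨ι⟩ : Nonempty (Ω →+* ℂ) := inferInstance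
  have hroot : ∀ z : Ω, aeval z g = 0 → aeval (ι z) g = 0 := by
    intro z hz
    have h2 : aeval (ι z) g = ι (aeval z g) := by
      have := Polynomial.hom_eval₂ g (algebraMap ℤ Ω) ι z
      rw [aeval_def, aeval_def, this]
      congr 1
      exact RingHom.ext_int _ _
    rw [h2, hz, map_zero]
  have h3 : aeval (s x) g = 0 := by rw [aeval_aut, hx, map_zero]
  have h4 := hnt (ι (s x)) (ι x) (hroot _ h3) (hroot _ hx) k hk (by rw [← map_pow, h, map_pow])
  exact ι.injective h4

/-- solvable groups have no nonabelian composition factors -/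
theorem smallFactors_of_isSolvable (κ : ℕ) {G : Type*} [Group G] (h : Group.IsSolvable G) :
    SX.SmallFactors κ G := by
  intro A _ B _ hs hab P _
  exfalso
  obtain ⟨a, b, hab⟩ := hab
  have h1 : Group.IsSolvable A := inferInstance
  have h2 : Group.IsSolvable (A ⧸ B) := inferInstance
  exact hab (IsSimpleGroup.comm_iff_isSolvable.2 h2 a b)

theorem finalQ (κ : ℕ) : ∃ (L : ℕ) (C : ℝ), ∀ f : ℤ[X],
    |f.leadingCoeff| = 1 → |f.trailingCoeff| = 1 → 1 < M f →
    ((¬ SX.SmallFactors κ (rat f).Gal ∧ HasSection κ 1 (rat f).Gal) ∨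
      ∃ F : ℤ[X], M F = M f ∧ (F.natDegree : ℝ) ≤ C * Real.log (M f) ^ L) ∧
    (Irreducible f → (∀ x y : ℂ, aeval x f = 0 → aeval y f = 0 → ∀ k : ℕ, 0 < k →
      x ^ k = y ^ k → x = y) →
      (¬ SX.SmallFactors κ (rat f).Gal ∧ HasSection κ f.natDegree (rat f).Gal) ∨
      (f.natDegree : ℝ) ≤ C * Real.log (M f) ^ L) := by
  obtain ⟨L, n₀, hlarge⟩ := good_large κ
  obtain ⟨C, hC, hconst, hbd⟩ := exists_boundedQ L (n₀ + 1)
  refine ⟨L + 1, C, ?_⟩
  intro f hl htc h1f
  refine ⟨?_, ?_⟩
  · by_cases hex : ¬ SX.SmallFactors κ (rat f).Gal ∧ HasSection κ 1 (rat f).Gal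
    · exact Or.inl hex
    · right
      refine hbd (rat f).SplittingField ?_ f hl htc (splits_self f)
      intro t g hg
      by_contra hcon
      push Not at hcon
      have h2 := hlarge (rat f).SplittingField t g hg (by omega) (by omega)
      exact hex ⟨h2.1, h2.2.mono (by omega)⟩
  · intro hi hnt
    by_cases hex : ¬ SX.SmallFactors κ (rat f).Gal ∧ HasSection κ f.natDegree (rat f).Gal
    · exact Or.inl hex
    · right
      obtain ⟨t, ht1, ht2, ht3⟩ := exists_t (M f) h1f.le
      have hc0 := coeff_zero_ne_zero hi h1f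
      have htc' : f.trailingCoeff = f.coeff 0 := by
        rw [trailingCoeff, natTrailingDegree_eq_zero.2 (Or.inr hc0)]
      rw [htc'] at htc
      apply hconst t (M f) f.natDegree h1f (fun _ => ⟨f, rfl, rfl⟩) ht2 ht3
      by_contra hcon
      push Not at hcon
      apply hex
      rcases Int.isUnit_iff.1 (Int.isUnit_iff_abs_eq.2 hl) with h | h
      · have hg : Good (rat f).SplittingField t f :=
          good_of_noTorsion h hi (splits_self f) h1f ht1 htc hnt
        exact hlarge (rat f).SplittingField t f hg (by omega) (by omega)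
      · have hg : Good (rat f).SplittingField t (-f) := by
          refine good_of_noTorsion (by rw [Monic, leadingCoeff_neg, h, neg_neg])
            ((Associated.irreducible_iff (Associated.neg_right (Associated.refl f))).1 hi)
            (by rw [Polynomial.map_neg]; exact (splits_self f).neg)
            (by rw [M_neg]; exact h1f) (by rw [M_neg]; exact ht1)
            (by rw [coeff_neg, abs_neg]; exact htc) ?_
          intro x y hx hy
          rw [map_neg, neg_eq_zero] at hx hy
          exact hnt x y hx hy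
        have h2 := hlarge (rat f).SplittingField t (-f) hg (by rw [natDegree_neg]; omega)
          (by rw [natDegree_neg]; omega)
        rw [natDegree_neg] at h2
        exact h2

end Pool.Agent.Lib.MP_7ab245_nt.Solv.FM
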