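import Mathlib
import Pool.Agent.Lib.MP_7ab245_nt.Solv.FM.Cover
import Pool.Agent.Lib.MP_7ab245_nt.Solv.FM.FinalQ
import Pool.Agent.Lib.MP_7ab245_nt.Solv.RR.Main

/-! The Mahler measure and the Galois group: final statements. -/

set_option autoImplicit false

open Polynomial

namespace Pool.Agent.Lib.MP_7ab245_nt.Solv.FM

open Pool.Agent.Lib.MP_7ab245_nt.Solv

/-- the properties of the Galois group of a polynomial of large degree -/
def Near (κ : ℕ) (g : ℤ[X]) : Prop :=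
  ¬ SX.SmallFactors κ (rat g).Gal ∧ ∀ x : (rat g).SplittingField, aeval x g = 0 →
    (g.natDegree = (lineStab x).index ∨ g.natDegree = 2 * (lineStab x).index) ∧
    Cover κ (lineStab x)

theorem good_near (κ : ℕ) : ∃ L n₀ : ℕ,
    (∀ (Ω : Type) [Field Ω] [NumberField Ω] [IsGalois ℚ Ω] (t : ℕ) (g : ℤ[X]), Good Ω t g →
      t ^ L ≤ g.natDegree → n₀ ≤ g.natDegree → ¬ SX.SmallFactors κ (Ω ≃ₐ[ℚ] Ω)) ∧
    ∀ g : ℤ[X], Irreducible g → |g.leadingCoeff| = 1 → |g.coeff 0| = 1 → RR.NT g → 1 < M g →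
      ∀ t : ℕ, M g ≤ 2 ^ t → t ^ L ≤ g.natDegree → n₀ ≤ g.natDegree → Near κ g := by
  obtain ⟨L₁, n₁, h1⟩ := good_large κ
  obtain ⟨L₂, n₂, h2⟩ := good_cover κ
  refine ⟨L₁ + L₂, n₁ + n₂ + 1, ?_, ?_⟩
  · intro Ω _ _ _ t g hg ht hn
    exact (h1 Ω t g hg (pow_le_of_exponent_le (by omega) (by omega) ht) (by omega)).1
  · have key : ∀ (g : ℤ[X]) (t : ℕ) (g' : ℤ[X]), g'.natDegree = g.natDegree →
        (∀ x : (rat g).SplittingField, aeval x g = 0 → aeval x g' = 0) →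
        Good (rat g).SplittingField t g' → t ^ (L₁ + L₂) ≤ g.natDegree →
        n₁ + n₂ + 1 ≤ g.natDegree → Near κ g := by
      intro g t g' hd hr hg ht hn
      have ht1 := pow_le_of_exponent_le (L := L₁) (by omega) (by omega) ht
      have ht2 := pow_le_of_exponent_le (L := L₂) (by omega) (by omega) ht
      refine ⟨(h1 _ t g' hg (by rw [hd]; exact ht1) (by omega)).1, ?_⟩
      intro x hx
      rw [← hd]
      exact ⟨lineStab_index hg x (hr x hx),
        h2 _ t g' hg (by rw [hd]; exact ht2) (by omega) x (hr x hx)⟩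
    intro g hi hl hc hnt hg1 t ht htL hn
    rcases Int.isUnit_iff.1 (Int.isUnit_iff_abs_eq.2 hl) with h | h
    · exact key g t g rfl (fun _ hx => hx)
        (good_of_noTorsion h hi (splits_self g) hg1 ht hc hnt) htL hn
    · refine key g t (-g) (natDegree_neg g) (fun x hx => by rw [map_neg, hx, neg_zero]) ?_ htL hn
      refine good_of_noTorsion (by rw [Monic, leadingCoeff_neg, h, neg_neg])
        ((Associated.irreducible_iff (Associated.neg_right (Associated.refl g))).1 hi)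
        (by rw [Polynomial.map_neg]; exact (splits_self g).neg)
        (by rw [M_neg]; exact hg1) (by rw [M_neg]; exact ht)
        (by rw [coeff_neg, abs_neg]; exact hc) ?_
      intro x y hx hy
      rw [map_neg, neg_eq_zero] at hx hy
      exact hnt x y hx hy

theorem good_of_nice {Ω : Type} [Field Ω] [NumberField Ω] [IsGalois ℚ Ω] {t : ℕ} {g : ℤ[X]}
    (hg : RR.Nice Ω t g) (h1 : 1 < M g) : Good Ω t g := by
  refine ⟨hg.monic, hg.irr, hg.splits, h1, hg.le, hg.c0, ?_⟩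
  intro x hx s k hk h
  exact hg.nt (s x) x (by rw [aeval_aut, hx, map_zero]) hx k hk h

theorem nice_mono {Ω : Type} [Field Ω] [NumberField Ω] {t t' : ℕ} {g : ℤ[X]}
    (hg : RR.Nice Ω t g) (h : M g ≤ 2 ^ t') : RR.Nice Ω t' g :=
  ⟨hg.monic, hg.irr, hg.splits, hg.c0, h, hg.nt⟩

theorem abs_trailingCoeff_le_M {f : ℤ[X]} (hf : f ≠ 0) : |(f.trailingCoeff : ℝ)| ≤ M f := by
  have h1 : X ^ f.natTrailingDegree ∣ f := by
    rw [X_pow_dvd_iff]
    intro d hd
    exact coeff_eq_zero_of_lt_natTrailingDegree hd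
  obtain ⟨f₁, hf₁⟩ := h1
  have h2 : f.trailingCoeff = f₁.coeff 0 := by
    have h4 := coeff_X_pow_mul f₁ f.natTrailingDegree 0
    rw [← hf₁, zero_add] at h4
    exact h4
  rw [h2]
  exact (abs_coeff_zero_le_M f₁).trans (M_le_of_dvd hf ⟨X ^ f.natTrailingDegree, by
    rw [mul_comm]; exact hf₁⟩)

private theorem abs_int_eq_one3 {a : ℤ} (h0 : a ≠ 0) (h : |(a : ℝ)| < 2) : |a| = 1 := by
  have h1 : |a| < 2 := by exact_mod_cast h
  have h2 : 0 < |a| := abs_pos.2 h0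
  omega

/-- All the statements. -/
theorem final2 (κ : ℕ) : ∃ (L : ℕ) (C c : ℝ), 1 ≤ L ∧ 0 < C ∧ 0 < c ∧
    (∀ f : ℤ[X], 1 < M f → SX.SmallFactors κ (rat f).Gal → 1 + c ≤ M f) ∧
    (∀ g : ℤ[X], Irreducible g → |g.leadingCoeff| = 1 → |g.coeff 0| = 1 → RR.NT g → 1 < M g →
      C * Real.log (M g) ^ L < g.natDegree → Near κ g) ∧
    (∀ f : ℤ[X], |f.leadingCoeff| = 1 → |f.trailingCoeff| = 1 → 1 < M f →
      (∃ F : ℤ[X], M F = M f ∧ (F.natDegree : ℝ) ≤ C * Real.log (M f) ^ L) ∨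
      (¬ SX.SmallFactors κ (rat f).Gal ∧ ∃ g : ℤ[X], Irreducible g ∧ RR.NT g ∧
        (g.map (Int.castRingHom (rat f).SplittingField)).Splits ∧
        1 < M g ∧ M g ≤ M f ∧ C * Real.log (M g) ^ L < g.natDegree ∧ |g.leadingCoeff| = 1 ∧
        |g.coeff 0| = 1 ∧ Near κ g)) := by
  obtain ⟨L₀, n₀, hno, hnear⟩ := good_near κ
  obtain ⟨C, hC, hdeg⟩ := RR.deg_le_log (L₀ + 1) (n₀ + 1)
  have hcrit : ∀ g : ℤ[X], 1 < M g → C * Real.log (M g) ^ (L₀ + 1) < g.natDegree →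
      ∃ t : ℕ, M g ≤ 2 ^ t ∧ t ^ (L₀ + 1) ≤ g.natDegree ∧ n₀ + 1 ≤ g.natDegree := by
    intro g hg hlt
    by_contra hcon
    push Not at hcon
    exact absurd (hdeg g hg hcon) (not_le.2 hlt)
  have hpart2 : ∀ g : ℤ[X], Irreducible g → |g.leadingCoeff| = 1 → |g.coeff 0| = 1 → RR.NT g →
      1 < M g → C * Real.log (M g) ^ (L₀ + 1) < g.natDegree → Near κ g := by
    intro g hi hl hc hnt hg hlt
    obtain ⟨t, ht1, ht2, ht3⟩ := hcrit g hg hlt
    exact hnear g hi hl hc hnt hg t ht1 (pow_le_of_exponent_le (by omega) (by omega) ht2)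
      (by omega)
  have hpart3 : ∀ f : ℤ[X], |f.leadingCoeff| = 1 → |f.trailingCoeff| = 1 → 1 < M f →
      (∃ F : ℤ[X], M F = M f ∧ (F.natDegree : ℝ) ≤ C * Real.log (M f) ^ (L₀ + 1)) ∨
      (¬ SX.SmallFactors κ (rat f).Gal ∧ ∃ g : ℤ[X], Irreducible g ∧ RR.NT g ∧
        (g.map (Int.castRingHom (rat f).SplittingField)).Splits ∧
        1 < M g ∧ M g ≤ M f ∧ C * Real.log (M g) ^ (L₀ + 1) < g.natDegree ∧
        |g.leadingCoeff| = 1 ∧ |g.coeff 0| = 1 ∧ Near κ g) := by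
    intro f hl ht hf
    by_cases hno' : ∀ (t : ℕ) (g : ℤ[X]), RR.Nice (rat f).SplittingField t g → 1 < M g →
        M g ≤ M f → (g.natDegree : ℝ) ≤ C * Real.log (M g) ^ (L₀ + 1)
    · left
      exact RR.exists_prod hC.le (L₀ + 1) (by omega) hno' f hl ht (splits_self f) le_rfl
    · right
      push Not at hno'
      obtain ⟨t, g, hg, hg1, hg2, hg3⟩ := hno'
      have hl : |g.leadingCoeff| = 1 := by rw [hg.monic.leadingCoeff, abs_one]
      refine ⟨?_, g, hg.irr, RR.nt_of_nice hg, hg.splits, hg1, hg2, hg3, hl, hg.c0,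
        hpart2 g hg.irr hl hg.c0 (RR.nt_of_nice hg) hg1 hg3⟩
      obtain ⟨t', ht1, ht2, ht3⟩ := hcrit g hg1 hg3
      exact hno (rat f).SplittingField t' g (good_of_nice (nice_mono hg ht1) hg1)
        (pow_le_of_exponent_le (by omega) (by omega) ht2) (by omega)
  obtain ⟨N₀, hN₀⟩ := exists_nat_ge (C * Real.log 2 ^ (L₀ + 1))
  obtain ⟨c₀, hc₀, hsmall⟩ := small_degree N₀
  refine ⟨L₀ + 1, C, min c₀ 1, by omega, hC, lt_min hc₀ one_pos, ?_, hpart2, hpart3⟩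
  intro f hf hsf
  by_contra hcon
  push Not at hcon
  have e1 : min c₀ 1 ≤ c₀ := min_le_left _ _
  have e2 : min c₀ 1 ≤ 1 := min_le_right _ _
  have hf2 : M f < 2 := by linarith
  have hf0 : f ≠ 0 := by
    rintro rfl
    have : M (0 : ℤ[X]) = 0 := by simp [M]
    linarith
  rcases hpart3 f
      (abs_int_eq_one3 (leadingCoeff_ne_zero.2 hf0) (lt_of_le_of_lt (abs_leadingCoeff_le_M f) hf2))
      (abs_int_eq_one3 (trailingCoeff_nonzero_iff_nonzero.2 hf0)
        (lt_of_le_of_lt (abs_trailingCoeff_le_M hf0) hf2)) hf with ⟨F, hF, hFd⟩ | ⟨hnsf, -⟩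
  · have h3 : Real.log (M f) ^ (L₀ + 1) ≤ Real.log 2 ^ (L₀ + 1) :=
      pow_le_pow_left₀ (Real.log_nonneg hf.le) (Real.log_le_log (by linarith) hf2.le) _
    have h4 : (F.natDegree : ℝ) ≤ N₀ :=
      hFd.trans ((mul_le_mul_of_nonneg_left h3 hC.le).trans hN₀)
    have h5 := hsmall F (by exact_mod_cast h4) (by rw [hF]; exact hf)
    rw [hF] at h5
    linarith
  · exact hnsf hsf

end Pool.Agent.Lib.MP_7ab245_nt.Solv.FM
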