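import Mathlib
import Pool.Agent.Lib.MP_7ab245_nt.Solv.F.Mul

/-! Finitely many Mahler measures below a bound. -/

set_option autoImplicit false

open Polynomial

namespace Pool.Agent.Lib.MP_7ab245_nt.Solv.FM

open Pool.Agent.Lib.MP_7ab245_nt.Solv

/-- If the Mahler measures `> 1` come from polynomials of small degree, there are only finitely many
below any bound. -/
theorem finite_values (L : ℕ) (C T : ℝ) (P : ℤ[X] → Prop)
    (h : ∀ f : ℤ[X], P f → 1 < M f →
      ∃ F : ℤ[X], M F = M f ∧ (F.natDegree : ℝ) ≤ C * Real.log (M f) ^ L) :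
    {m : ℝ | ∃ f : ℤ[X], P f ∧ f ≠ 0 ∧ M f = m ∧ m ≤ T}.Finite := by
  obtain ⟨N, hN⟩ := exists_nat_ge (max C 0 * max (Real.log T) 0 ^ L)
  have hfin := Polynomial.finite_mahlerMeasure_le N T.toNNReal
  refine ((hfin.image M).union (Set.finite_singleton (1 : ℝ))).subset ?_
  rintro m ⟨f, hP, hf0, rfl, hT⟩
  by_cases h1 : 1 < M f
  · left
    obtain ⟨F, hF, hFd⟩ := h f hP h1
    refine ⟨F, ⟨?_, ?_⟩, hF⟩
    · have h2 : Real.log (M f) ^ L ≤ max (Real.log T) 0 ^ L :=
        pow_le_pow_left₀ (Real.log_nonneg h1.le)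
          ((Real.log_le_log (by linarith) hT).trans (le_max_left _ _)) L
      have h3 : 0 ≤ Real.log (M f) ^ L := pow_nonneg (Real.log_nonneg h1.le) L
      have h4 : C * Real.log (M f) ^ L ≤ max C 0 * max (Real.log T) 0 ^ L :=
        (mul_le_mul_of_nonneg_right (le_max_left C 0) h3).trans
          (mul_le_mul_of_nonneg_left h2 (le_max_right C 0))
      have h5 := (hFd.trans h4).trans hN
      exact_mod_cast h5
    · have h2 : 0 ≤ T := by linarith
      change (F.map (Int.castRingHom ℂ)).mahlerMeasure ≤ (T.toNNReal : ℝ)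
      rw [Real.coe_toNNReal _ h2]
      exact (le_of_eq hF).trans hT
  · right
    exact le_antisymm (not_lt.1 h1) (one_le_M hf0)

end Pool.Agent.Lib.MP_7ab245_nt.Solv.FM
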